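import Pool.Agent.H837R2.Jones.Exist

set_option autoImplicit false
set_option linter.unusedSimpArgs false

namespace Pool.Agent.H837R2.Jones

open LaurentPolynomial

/-! ### removing a curl, for an arbitrary invariant -/

section
variable {V : OWord → R} (hV : IsJones V)
include hV

theorem V_step {x l r y : OWord} {d e : List Bool}
    (h : LocalMove (forget l) (forget r) ∨ FirstMove (forget l) (forget r))
    (hx : below x [] = some d) (hl : below l d = some e) (hr : below r d = some e)
    (hy : below y e = some []) : V (x ++ l ++ y) = V (x ++ r ++ y) :=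
  hV.isotopy _ _ (Relation.EqvGen.rel _ _ (Step.mk x l r y d e h hx hl hr hy))

theorem curlPos (x y : OWord) (i : ℕ) (d d1 d2 d3 : List Bool)
    (h1 : below x [] = some d) (h2 : below [OPiece.birth (i + 1) true] d = some d1)
    (h3 : below [OPiece.pos i, OPiece.death (i + 1)] d1 = some d)
    (h4 : below [OPiece.neg (i + 1), OPiece.death i] d1 = some d)
    (h5 : below [OPiece.birth (i + 1) true, OPiece.neg (i + 1)] d = some d2)
    (h6 : below [OPiece.birth (i + 1) false] d = some d2)
    (h7 : below [OPiece.death i] d2 = some d3)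
    (h9 : below y d = some []) (h10 : d3 = d) :
    V (x ++ [OPiece.birth (i + 1) true, OPiece.pos i, OPiece.death (i + 1)] ++ y) = V (x ++ y) := by
  subst h10
  have e1 := V_step hV (x := x ++ [OPiece.birth (i + 1) true]) (l := [OPiece.neg (i + 1), OPiece.death i])
    (r := [OPiece.pos i, OPiece.death (i + 1)]) (y := y) (Or.inl (LocalMove.slideDeath₂ i))
    (by rw [below_append_some h1, h2]) h4 h3 h9
  have e2 := V_step hV (x := x) (l := [OPiece.birth (i + 1) true, OPiece.neg (i + 1)])
    (r := [OPiece.birth (i + 1) false]) (y := [OPiece.death i] ++ y) (Or.inr (FirstMove.birthNeg (i + 1)))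
    h1 h5 h6 (by rw [below_append_some h7, h9])
  have e3 := V_step hV (x := x) (l := [OPiece.birth (i + 1) false, OPiece.death i])
    (r := []) (y := y) (Or.inl (LocalMove.zigzag₂ i)) h1
    (by
      have := below_append_some (v := [OPiece.death i]) h6
      rw [h7] at this
      exact this) rfl h9
  simp only [List.append_assoc, List.cons_append, List.nil_append] at e1 e2 e3 ⊢
  rw [← e1, e2, e3]

theorem curlNeg (x y : OWord) (i : ℕ) (d d1 d2 d3 : List Bool)
    (h1 : below x [] = some d) (h2 : below [OPiece.birth (i + 1) true] d = some d1)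
    (h3 : below [OPiece.neg i, OPiece.death (i + 1)] d1 = some d)
    (h4 : below [OPiece.pos (i + 1), OPiece.death i] d1 = some d)
    (h5 : below [OPiece.birth (i + 1) true, OPiece.pos (i + 1)] d = some d2)
    (h6 : below [OPiece.birth (i + 1) false] d = some d2)
    (h7 : below [OPiece.death i] d2 = some d3)
    (h9 : below y d = some []) (h10 : d3 = d) :
    V (x ++ [OPiece.birth (i + 1) true, OPiece.neg i, OPiece.death (i + 1)] ++ y) = V (x ++ y) := by
  subst h10
  have e1 := V_step hV (x := x ++ [OPiece.birth (i + 1) true]) (l := [OPiece.pos (i + 1), OPiece.death i])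
    (r := [OPiece.neg i, OPiece.death (i + 1)]) (y := y) (Or.inl (LocalMove.slideDeath₁ i))
    (by rw [below_append_some h1, h2]) h4 h3 h9
  have e2 := V_step hV (x := x) (l := [OPiece.birth (i + 1) true, OPiece.pos (i + 1)])
    (r := [OPiece.birth (i + 1) false]) (y := [OPiece.death i] ++ y) (Or.inr (FirstMove.birthPos (i + 1)))
    h1 h5 h6 (by rw [below_append_some h7, h9])
  have e3 := V_step hV (x := x) (l := [OPiece.birth (i + 1) false, OPiece.death i])
    (r := []) (y := y) (Or.inl (LocalMove.zigzag₂ i)) h1
    (by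
      have := below_append_some (v := [OPiece.death i]) h6
      rw [h7] at this
      exact this) rfl h9
  simp only [List.append_assoc, List.cons_append, List.nil_append] at e1 e2 e3 ⊢
  rw [← e1, e2, e3]

end

/-! ### closed braids with two and three strands -/

/-- the closure of a word in the crossings of the strands `0`, `1` -/
def cl2 (w : OWord) : OWord := [OPiece.birth 0 true, OPiece.birth 1 true] ++ w ++ [OPiece.death 1, OPiece.death 0]

/-- the closure of a word in the crossings of the strands `0`, `1`, `2` -/
def cl3 (w : OWord) : OWord :=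
  [OPiece.birth 0 true, OPiece.birth 1 true, OPiece.birth 2 true] ++ w ++ [OPiece.death 2, OPiece.death 1, OPiece.death 0]

/-- the directions of the strands of a closed 3-braid -/
abbrev D3 : List Bool := [true, true, true, false, false, false]

/-- braid words on three strands -/
def Br (w : OWord) : Prop := ∀ p ∈ w, p = OPiece.pos 0 ∨ p = OPiece.pos 1 ∨ p = OPiece.neg 0 ∨ p = OPiece.neg 1

theorem below_br {w : OWord} (h : Br w) : below w D3 = some D3 := by
  induction w with
  | nil => rfl
  | cons p w ih =>
    have h1 : p.below D3 = some D3 := by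
      rcases h p List.mem_cons_self with rfl | rfl | rfl | rfl <;> rfl
    rw [below_cons_some h1]
    exact ih fun q hq => h q (List.mem_cons_of_mem _ hq)

theorem Br.append {u v : OWord} (hu : Br u) (hv : Br v) : Br (u ++ v) := by
  intro p hp
  rcases List.mem_append.mp hp with h | h
  · exact hu p h
  · exact hv p h

theorem below_start {u : OWord} (hu : Br u) :
    below ([OPiece.birth 0 true, OPiece.birth 1 true, OPiece.birth 2 true] ++ u) [] = some D3 := by
  have : below [OPiece.birth 0 true, OPiece.birth 1 true, OPiece.birth 2 true] [] = some D3 := rfl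
  rw [below_append_some this, below_br hu]

theorem below_end {v : OWord} (hv : Br v) :
    below (v ++ [OPiece.death 2, OPiece.death 1, OPiece.death 0]) D3 = some [] := by
  rw [below_append_some (below_br hv)]
  rfl

theorem cl3_link {w : OWord} (hw : Br w) : IsLinkDiagram (cl3 w) := by
  constructor
  · simp [cl3]
  · rw [cl3, below_append_some (below_start hw)]
    rfl

section
variable {V : OWord → R} (hV : IsJones V)
include hV

theorem V3_second {u v : OWord} (hu : Br u) (hv : Br v) (i : ℕ) (hi : i = 0 ∨ i = 1) :
    V (cl3 (u ++ [OPiece.neg i, OPiece.pos i] ++ v)) = V (cl3 (u ++ v)) := by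
  have := V_step hV (l := [OPiece.neg i, OPiece.pos i]) (r := []) (Or.inl (LocalMove.second₂ i))
    (below_start hu) (e := D3) (by rcases hi with rfl | rfl <;> rfl) rfl (below_end hv)
  simpa only [cl3, List.append_assoc, List.nil_append] using this

theorem V3_third {u v : OWord} (hu : Br u) (hv : Br v) :
    V (cl3 (u ++ [OPiece.pos 1, OPiece.pos 0, OPiece.pos 1] ++ v)) = V (cl3 (u ++ [OPiece.pos 0, OPiece.pos 1, OPiece.pos 0] ++ v)) := by
  have := V_step hV (l := [OPiece.pos 0, OPiece.pos 1, OPiece.pos 0]) (r := [OPiece.pos 1, OPiece.pos 0, OPiece.pos 1])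
    (Or.inl (LocalMove.third 0)) (below_start hu) (e := D3) rfl rfl (below_end hv)
  simpa only [cl3, List.append_assoc] using this.symm

theorem V3_skein {u v : OWord} (hu : Br u) (hv : Br v) (i : ℕ) (hi : i = 0 ∨ i = 1) :
    tHalf (-2) * V (cl3 (u ++ [OPiece.pos i] ++ v)) - tHalf 2 * V (cl3 (u ++ [OPiece.neg i] ++ v)) =
      (tHalf 1 - tHalf (-1)) * V (cl3 (u ++ v)) := by
  have hp : Br [OPiece.pos i] := by
    intro p hp
    rw [List.mem_singleton] at hp
    rcases hi with rfl | rfl <;> simp [hp]
  have := hV.skein _ _ _ (Triple.parallel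
    ([OPiece.birth 0 true, OPiece.birth 1 true, OPiece.birth 2 true] ++ u)
    (v ++ [OPiece.death 2, OPiece.death 1, OPiece.death 0]) i D3 true (below_start hu)
    (by rcases hi with rfl | rfl <;> rfl) (by rcases hi with rfl | rfl <;> rfl)
    (by
      have := cl3_link ((hu.append hp).append hv)
      simpa only [cl3, List.append_assoc] using this))
  simpa only [cl3, List.append_assoc] using this

theorem V3_quad {u v : OWord} (hu : Br u) (hv : Br v) (i : ℕ) (hi : i = 0 ∨ i = 1) :
    V (cl3 (u ++ [OPiece.pos i, OPiece.pos i] ++ v)) =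
      tHalf 2 * (tHalf 1 - tHalf (-1)) * V (cl3 (u ++ [OPiece.pos i] ++ v)) +
        tHalf 4 * V (cl3 (u ++ v)) := by
  have hp : Br [OPiece.pos i] := by
    intro p hp
    rw [List.mem_singleton] at hp
    rcases hi with rfl | rfl <;> simp [hp]
  have e1 := V3_skein hV hu (hp.append hv) i hi
  have e2 := V3_second hV hu hv i hi
  simp only [List.append_assoc, List.cons_append, List.nil_append] at e1 e2 ⊢
  rw [e2] at e1
  have h22 : (tHalf 2 * tHalf (-2) : R) = 1 := by rw [← T_add]; rfl
  have h4 : (tHalf 4 : R) = tHalf 2 * tHalf 2 := by rw [← T_add]; rfl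
  rw [h4]
  generalize V (cl3 (u ++ .pos i :: OPiece.pos i :: v)) = X at *
  generalize V (cl3 (u ++ .pos i :: v)) = Y at *
  generalize V (cl3 (u ++ v)) = Z at *
  linear_combination (tHalf 2) * e1 - X * h22

/-! ### small closed braids -/

theorem V_cl2_pos : V (cl2 [OPiece.pos 0]) = 1 := by
  have e := curlPos hV [OPiece.birth 0 true] [OPiece.death 0] 0 [true, false] [true, true, false, false]
    [true, false, true, false] [true, false] (by decide) (by decide) (by decide) (by decide)
    (by decide) (by decide) (by decide) (by decide) rfl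
  have e1 : cl2 [OPiece.pos 0] = ([OPiece.birth 0 true] : OWord) ++ [OPiece.birth (0 + 1) true, OPiece.pos 0,
    OPiece.death (0 + 1)] ++ [OPiece.death 0] := by decide
  have e2 : circle = ([OPiece.birth 0 true] : OWord) ++ [OPiece.death 0] := by decide
  rw [e1, e, ← e2, hV.unknot]

theorem V_cl2_neg : V (cl2 [OPiece.neg 0]) = 1 := by
  have e := curlNeg hV [OPiece.birth 0 true] [OPiece.death 0] 0 [true, false] [true, true, false, false]
    [true, false, true, false] [true, false] (by decide) (by decide) (by decide) (by decide)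
    (by decide) (by decide) (by decide) (by decide) rfl
  have e1 : cl2 [OPiece.neg 0] = ([OPiece.birth 0 true] : OWord) ++ [OPiece.birth (0 + 1) true, OPiece.neg 0,
    OPiece.death (0 + 1)] ++ [OPiece.death 0] := by decide
  have e2 : circle = ([OPiece.birth 0 true] : OWord) ++ [OPiece.death 0] := by decide
  rw [e1, e, ← e2, hV.unknot]

end

theorem z_ne : (tHalf 1 - tHalf (-1) : R) ≠ 0 := by
  intro h
  have := congrArg (fun p : R => p.coeff 1) h
  simp at this

theorem th22 : (tHalf 2 * tHalf (-2) : R) = 1 := by rw [← T_add]; rfl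

theorem th4 : (tHalf 4 : R) = tHalf 2 * tHalf 2 := by rw [← T_add]; rfl

theorem th2 : (tHalf 2 : R) = tHalf 1 * tHalf 1 := by rw [← T_add]; rfl

theorem thm2 : (tHalf (-2) : R) = tHalf (-1) * tHalf (-1) := by rw [← T_add]; rfl

theorem zalg (X : R) (h : tHalf (-2) * 1 - tHalf 2 * 1 = (tHalf 1 - tHalf (-1)) * X) :
    X = -(tHalf 1 + tHalf (-1)) := by
  apply mul_left_cancel₀ z_ne
  rw [← h, th2, thm2]
  ring

section
variable {V : OWord → R} (hV : IsJones V)
include hV

theorem V_cl2_nil : V (cl2 []) = -(tHalf 1 + tHalf (-1)) := by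
  have h := hV.skein _ _ _ (Triple.parallel [OPiece.birth 0 true, OPiece.birth 1 true] [OPiece.death 1, OPiece.death 0] 0
    [true, true, false, false] true (by decide) (by decide) (by decide)
    ⟨by decide, by decide⟩)
  have e1 : ([OPiece.birth 0 true, OPiece.birth 1 true] : OWord) ++ [OPiece.pos 0] ++ [OPiece.death 1, OPiece.death 0] =
    cl2 [OPiece.pos 0] := by decide
  have e2 : ([OPiece.birth 0 true, OPiece.birth 1 true] : OWord) ++ [OPiece.neg 0] ++ [OPiece.death 1, OPiece.death 0] =
    cl2 [OPiece.neg 0] := by decide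
  have e3 : ([OPiece.birth 0 true, OPiece.birth 1 true] : OWord) ++ [OPiece.death 1, OPiece.death 0] = cl2 [] := by decide
  rw [e1, e2, e3, V_cl2_pos hV, V_cl2_neg hV] at h
  exact zalg _ h

theorem V_cl2_two : V (cl2 [OPiece.pos 0, OPiece.pos 0]) =
    tHalf 2 * (tHalf 1 - tHalf (-1)) - tHalf 4 * (tHalf 1 + tHalf (-1)) := by
  have h := hV.skein _ _ _ (Triple.parallel [OPiece.birth 0 true, OPiece.birth 1 true]
    [OPiece.pos 0, OPiece.death 1, OPiece.death 0] 0 [true, true, false, false] true (by decide) (by decide)
    (by decide) ⟨by decide, by decide⟩)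
  have h1 := V_step hV (x := [OPiece.birth 0 true, OPiece.birth 1 true]) (l := [OPiece.neg 0, OPiece.pos 0]) (r := [])
    (y := [OPiece.death 1, OPiece.death 0]) (Or.inl (LocalMove.second₂ 0)) (d := [true, true, false, false])
    (e := [true, true, false, false]) (by decide) (by decide) (by decide) (by decide)
  have e1 : ([OPiece.birth 0 true, OPiece.birth 1 true] : OWord) ++ [] ++ [OPiece.death 1, OPiece.death 0] =
    cl2 [] := by decide
  have e2 : ([OPiece.birth 0 true, OPiece.birth 1 true] : OWord) ++ [OPiece.neg 0, OPiece.pos 0] ++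
    [OPiece.death 1, OPiece.death 0] = cl2 [OPiece.neg 0, OPiece.pos 0] := by decide
  have e3 : ([OPiece.birth 0 true, OPiece.birth 1 true] : OWord) ++ [OPiece.neg 0] ++ [OPiece.pos 0, OPiece.death 1, OPiece.death 0] =
    cl2 [OPiece.neg 0, OPiece.pos 0] := by decide
  have e4 : ([OPiece.birth 0 true, OPiece.birth 1 true] : OWord) ++ [OPiece.pos 0] ++ [OPiece.pos 0, OPiece.death 1, OPiece.death 0] =
    cl2 [OPiece.pos 0, OPiece.pos 0] := by decide
  have e5 : ([OPiece.birth 0 true, OPiece.birth 1 true] : OWord) ++ [OPiece.pos 0, OPiece.death 1, OPiece.death 0] =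
    cl2 [OPiece.pos 0] := by decide
  rw [e1, e2, V_cl2_nil hV] at h1
  rw [e3, e4, e5, h1, V_cl2_pos hV] at h
  rw [th4]
  generalize V (cl2 [OPiece.pos 0, OPiece.pos 0]) = X at *
  linear_combination (tHalf 2) * h - X * th22

theorem V_cl3_1 : V (cl3 [OPiece.pos 1]) = V (cl2 []) := by
  have e := curlPos hV [OPiece.birth 0 true, OPiece.birth 1 true] [OPiece.death 1, OPiece.death 0] 1
    [true, true, false, false] [true, true, true, false, false, false]
    [true, true, false, true, false, false] [true, true, false, false] (by decide) (by decide)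
    (by decide) (by decide) (by decide) (by decide) (by decide) (by decide) rfl
  have e1 : cl3 [OPiece.pos 1] = ([OPiece.birth 0 true, OPiece.birth 1 true] : OWord) ++ [OPiece.birth (1 + 1) true,
    OPiece.pos 1, OPiece.death (1 + 1)] ++ [OPiece.death 1, OPiece.death 0] := by decide
  have e2 : cl2 [] = ([OPiece.birth 0 true, OPiece.birth 1 true] : OWord) ++ [OPiece.death 1, OPiece.death 0] := by decide
  rw [e1, e2, e]

theorem V_cl3_1' : V (cl3 [OPiece.neg 1]) = V (cl2 []) := by
  have e := curlNeg hV [OPiece.birth 0 true, OPiece.birth 1 true] [OPiece.death 1, OPiece.death 0] 1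
    [true, true, false, false] [true, true, true, false, false, false]
    [true, true, false, true, false, false] [true, true, false, false] (by decide) (by decide)
    (by decide) (by decide) (by decide) (by decide) (by decide) (by decide) rfl
  have e1 : cl3 [OPiece.neg 1] = ([OPiece.birth 0 true, OPiece.birth 1 true] : OWord) ++ [OPiece.birth (1 + 1) true,
    OPiece.neg 1, OPiece.death (1 + 1)] ++ [OPiece.death 1, OPiece.death 0] := by decide
  have e2 : cl2 [] = ([OPiece.birth 0 true, OPiece.birth 1 true] : OWord) ++ [OPiece.death 1, OPiece.death 0] := by decide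
  rw [e1, e2, e]

theorem V_cl3_left (w : OWord) (hw : Br w) :
    V (cl3 (OPiece.pos 0 :: w)) = V ([OPiece.birth 0 true, OPiece.birth 1 true, OPiece.pos 0, OPiece.birth 2 true] ++ w ++
      [OPiece.death 2, OPiece.death 1, OPiece.death 0]) := by
  have := V_step hV (x := [OPiece.birth 0 true, OPiece.birth 1 true]) (l := [OPiece.pos 0, OPiece.birth 2 true])
    (r := [OPiece.birth 2 true, OPiece.pos 0]) (y := w ++ [OPiece.death 2, OPiece.death 1, OPiece.death 0])
    (Or.inl (LocalMove.exchange (.pos 0) (.birth 2) (by decide))) (d := [true, true, false, false])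
    (e := D3) (by decide) (by decide) (by decide) (below_end hw)
  simpa only [cl3, List.append_assoc, List.cons_append, List.nil_append] using this.symm

theorem V_cl3_01 : V (cl3 [OPiece.pos 0, OPiece.pos 1]) = V (cl2 [OPiece.pos 0]) := by
  rw [V_cl3_left hV [OPiece.pos 1] (by intro p hp; simp at hp; simp [hp])]
  have e := curlPos hV [OPiece.birth 0 true, OPiece.birth 1 true, OPiece.pos 0] [OPiece.death 1, OPiece.death 0] 1
    [true, true, false, false] [true, true, true, false, false, false]
    [true, true, false, true, false, false] [true, true, false, false] (by decide) (by decide)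
    (by decide) (by decide) (by decide) (by decide) (by decide) (by decide) rfl
  have e1 : ([OPiece.birth 0 true, OPiece.birth 1 true, OPiece.pos 0, OPiece.birth 2 true] : OWord) ++ [OPiece.pos 1] ++
      [OPiece.death 2, OPiece.death 1, OPiece.death 0] = [OPiece.birth 0 true, OPiece.birth 1 true, OPiece.pos 0] ++
      [OPiece.birth (1 + 1) true, OPiece.pos 1, OPiece.death (1 + 1)] ++ [OPiece.death 1, OPiece.death 0] := by decide
  have e2 : cl2 [OPiece.pos 0] = ([OPiece.birth 0 true, OPiece.birth 1 true, OPiece.pos 0] : OWord) ++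
    [OPiece.death 1, OPiece.death 0] := by decide
  rw [e1, e2, e]

theorem V_cl3_01' : V (cl3 [OPiece.pos 0, OPiece.neg 1]) = V (cl2 [OPiece.pos 0]) := by
  rw [V_cl3_left hV [OPiece.neg 1] (by intro p hp; simp at hp; simp [hp])]
  have e := curlNeg hV [OPiece.birth 0 true, OPiece.birth 1 true, OPiece.pos 0] [OPiece.death 1, OPiece.death 0] 1
    [true, true, false, false] [true, true, true, false, false, false]
    [true, true, false, true, false, false] [true, true, false, false] (by decide) (by decide)
    (by decide) (by decide) (by decide) (by decide) (by decide) (by decide) rfl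
  have e1 : ([OPiece.birth 0 true, OPiece.birth 1 true, OPiece.pos 0, OPiece.birth 2 true] : OWord) ++ [OPiece.neg 1] ++
      [OPiece.death 2, OPiece.death 1, OPiece.death 0] = [OPiece.birth 0 true, OPiece.birth 1 true, OPiece.pos 0] ++
      [OPiece.birth (1 + 1) true, OPiece.neg 1, OPiece.death (1 + 1)] ++ [OPiece.death 1, OPiece.death 0] := by decide
  have e2 : cl2 [OPiece.pos 0] = ([OPiece.birth 0 true, OPiece.birth 1 true, OPiece.pos 0] : OWord) ++
    [OPiece.death 1, OPiece.death 0] := by decide
  rw [e1, e2, e]

theorem V_cl3_10 : V (cl3 [OPiece.pos 1, OPiece.pos 0]) = V (cl2 [OPiece.pos 0]) := by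
  have h := V_step hV (x := [OPiece.birth 0 true, OPiece.birth 1 true, OPiece.birth 2 true, OPiece.pos 1])
    (l := [OPiece.pos 0, OPiece.death 2]) (r := [OPiece.death 2, OPiece.pos 0]) (y := [OPiece.death 1, OPiece.death 0])
    (Or.inl (LocalMove.exchange (.pos 0) (.death 2) (by decide))) (d := D3)
    (e := [true, true, false, false]) (by decide) (by decide) (by decide) (by decide)
  have e := curlPos hV [OPiece.birth 0 true, OPiece.birth 1 true] [OPiece.pos 0, OPiece.death 1, OPiece.death 0] 1
    [true, true, false, false] [true, true, true, false, false, false]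
    [true, true, false, true, false, false] [true, true, false, false] (by decide) (by decide)
    (by decide) (by decide) (by decide) (by decide) (by decide) (by decide) rfl
  have e1 : cl3 [OPiece.pos 1, OPiece.pos 0] = ([OPiece.birth 0 true, OPiece.birth 1 true, OPiece.birth 2 true, OPiece.pos 1] : OWord)
    ++ [OPiece.pos 0, OPiece.death 2] ++ [OPiece.death 1, OPiece.death 0] := by decide
  have e2 : ([OPiece.birth 0 true, OPiece.birth 1 true, OPiece.birth 2 true, OPiece.pos 1] : OWord)
    ++ [OPiece.death 2, OPiece.pos 0] ++ [OPiece.death 1, OPiece.death 0] = [OPiece.birth 0 true, OPiece.birth 1 true] ++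
    [OPiece.birth (1 + 1) true, OPiece.pos 1, OPiece.death (1 + 1)] ++ [OPiece.pos 0, OPiece.death 1, OPiece.death 0] := by decide
  have e3 : cl2 [OPiece.pos 0] = ([OPiece.birth 0 true, OPiece.birth 1 true] : OWord) ++
    [OPiece.pos 0, OPiece.death 1, OPiece.death 0] := by decide
  rw [e1, h, e2, e, e3]

theorem V_cl3_010 : V (cl3 [OPiece.pos 0, OPiece.pos 1, OPiece.pos 0]) = V (cl2 [OPiece.pos 0, OPiece.pos 0]) := by
  rw [V_cl3_left hV [OPiece.pos 1, OPiece.pos 0] (by
    intro p hp
    simp at hp
    rcases hp with rfl | rfl <;> simp)]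
  have h := V_step hV (x := [OPiece.birth 0 true, OPiece.birth 1 true, OPiece.pos 0, OPiece.birth 2 true, OPiece.pos 1])
    (l := [OPiece.pos 0, OPiece.death 2]) (r := [OPiece.death 2, OPiece.pos 0]) (y := [OPiece.death 1, OPiece.death 0])
    (Or.inl (LocalMove.exchange (.pos 0) (.death 2) (by decide))) (d := D3)
    (e := [true, true, false, false]) (by decide) (by decide) (by decide) (by decide)
  have e := curlPos hV [OPiece.birth 0 true, OPiece.birth 1 true, OPiece.pos 0] [OPiece.pos 0, OPiece.death 1, OPiece.death 0] 1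
    [true, true, false, false] [true, true, true, false, false, false]
    [true, true, false, true, false, false] [true, true, false, false] (by decide) (by decide)
    (by decide) (by decide) (by decide) (by decide) (by decide) (by decide) rfl
  have e1 : ([OPiece.birth 0 true, OPiece.birth 1 true, OPiece.pos 0, OPiece.birth 2 true] : OWord) ++ [OPiece.pos 1, OPiece.pos 0] ++
      [OPiece.death 2, OPiece.death 1, OPiece.death 0] =
    ([OPiece.birth 0 true, OPiece.birth 1 true, OPiece.pos 0, OPiece.birth 2 true, OPiece.pos 1] : OWord) ++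
    [OPiece.pos 0, OPiece.death 2] ++ [OPiece.death 1, OPiece.death 0] := by decide
  have e2 : ([OPiece.birth 0 true, OPiece.birth 1 true, OPiece.pos 0, OPiece.birth 2 true, OPiece.pos 1] : OWord)
    ++ [OPiece.death 2, OPiece.pos 0] ++ [OPiece.death 1, OPiece.death 0] = [OPiece.birth 0 true, OPiece.birth 1 true, OPiece.pos 0] ++
    [OPiece.birth (1 + 1) true, OPiece.pos 1, OPiece.death (1 + 1)] ++ [OPiece.pos 0, OPiece.death 1, OPiece.death 0] := by decide
  have e3 : cl2 [OPiece.pos 0, OPiece.pos 0] = ([OPiece.birth 0 true, OPiece.birth 1 true, OPiece.pos 0] : OWord) ++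
    [OPiece.pos 0, OPiece.death 1, OPiece.death 0] := by decide
  rw [e1, h, e2, e, e3]

theorem V_cl3_nil : V (cl3 []) = (tHalf 1 + tHalf (-1)) ^ 2 := by
  have h := V3_skein hV (u := []) (v := []) (by intro p hp; simp at hp) (by intro p hp; simp at hp)
    1 (Or.inr rfl)
  simp only [List.nil_append, List.append_nil] at h
  rw [V_cl3_1 hV, V_cl3_1' hV, V_cl2_nil hV] at h
  apply mul_left_cancel₀ z_ne
  rw [← h, th2, thm2]
  ring

theorem V_cl3_0 : V (cl3 [OPiece.pos 0]) = -(tHalf 1 + tHalf (-1)) := by
  have h := V3_skein hV (u := [OPiece.pos 0]) (v := []) (by intro p hp; simp at hp; simp [hp])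
    (by intro p hp; simp at hp) 1 (Or.inr rfl)
  simp only [List.cons_append, List.nil_append, List.append_nil] at h
  rw [V_cl3_01 hV, V_cl3_01' hV, V_cl2_pos hV] at h
  exact zalg _ h

end

end Pool.Agent.H837R2.Jones
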