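import Pool.Agent.H837R2.Jones.Defs
import Pool.Agent.Helper62.BracketRing

set_option autoImplicit false
set_option linter.unusedSimpArgs false

namespace Pool.Agent.H837R2.Jones

open Pool.Agent.Helper62 Pool.Agent.Helper62.StateSum Pool.Agent.Helper62.Linear
open Pool.Agent.Helper62.BracketRing

/-! ### general lemmas on the state sum -/

section Gen
variable {C S : Type*} [CommSemiring S] {op : Op C S}

theorem value_smul' (hM : IsModel op) (hL : IsLinear op) {X Y : List (ℕ × Skein.Piece)}
    {n0 m0 : ℕ} (s : S)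
    (hX : Skein.width n0 X = some m0) (hY : Skein.width n0 Y = some m0)
    (h : ∀ (f : List C → S) (Z : List C), Z.length = n0 → eval op X f Z = s * eval op Y f Z)
    (A B : List (ℕ × Skein.Piece)) (n k : ℕ) (hA : Skein.width 0 A = some n) (hk : k + n0 ≤ n) :
    value op (A ++ shiftWord k X ++ B) = s * value op (A ++ shiftWord k Y ++ B) := by
  unfold value
  rw [eval_append, eval_append, eval_append, eval_append, ← eval_smul hM hL A 0 n _ _ hA [] rfl]
  apply eval_congr hM A 0 n _ _ hA _ [] rfl
  intro l hl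
  obtain ⟨A', Z, B', rfl, rfl, hZ⟩ := split3 (l := l) (k := k) (n0 := n0) (by omega)
  rw [eval_shift hM X n0 m0 _ A' Z B' hX hZ, eval_shift hM Y n0 m0 _ A' Z B' hY hZ]
  exact h _ _ hZ

theorem value_lin2 (hM : IsModel op) (hL : IsLinear op) {X Y W : List (ℕ × Skein.Piece)}
    {n0 : ℕ} (s t : S)
    (hX : Skein.width n0 X = some n0) (hY : Skein.width n0 Y = some n0)
    (hW : Skein.width n0 W = some n0)
    (h : ∀ (f : List C → S) (Z : List C), Z.length = n0 →
      eval op X f Z = s * eval op Y f Z + t * eval op W f Z)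
    (A B : List (ℕ × Skein.Piece)) (n k : ℕ) (hA : Skein.width 0 A = some n) (hk : k + n0 ≤ n) :
    value op (A ++ shiftWord k X ++ B) =
      s * value op (A ++ shiftWord k Y ++ B) + t * value op (A ++ shiftWord k W ++ B) := by
  unfold value
  simp only [eval_append]
  rw [← eval_smul hM hL A 0 n _ _ hA [] rfl, ← eval_smul hM hL A 0 n _ _ hA [] rfl,
    ← eval_add hM hL A 0 n _ _ hA [] rfl]
  apply eval_congr hM A 0 n _ _ hA _ [] rfl
  intro l hl
  obtain ⟨A', Z, B', rfl, rfl, hZ⟩ := split3 (l := l) (k := k) (n0 := n0) (by omega)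
  rw [eval_shift hM X n0 n0 _ A' Z B' hX hZ, eval_shift hM Y n0 n0 _ A' Z B' hY hZ,
    eval_shift hM W n0 n0 _ A' Z B' hW hZ]
  exact h _ _ hZ

end Gen

/-! ### translation -/

/-- translation of a piece into the notation of the state sum files -/
def tp : Piece → ℕ × Skein.Piece
  | .birth i => (i, .cup)
  | .death i => (i, .cap)
  | .pos i => (i, .pos)
  | .neg i => (i, .neg)

/-- translation of words -/
def tw (w : Word) : List (ℕ × Skein.Piece) := w.map tp

theorem tw_append (u v : Word) : tw (u ++ v) = tw u ++ tw v := by simp [tw]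

theorem tp_moved (q : Piece) (j : ℕ) : tp (q.moved j) = (j, (tp q).2) := by
  cases q <;> rfl

theorem tp_eq (q : Piece) : tp q = (q.index, (tp q).2) := by
  cases q <;> rfl

theorem low_tp (q : Piece) : (tp q).2.low = q.ins := by cases q <;> rfl

theorem high_tp (q : Piece) : (tp q).2.high = q.outs := by cases q <;> rfl

theorem localMove_tw {l r : Word} (h : LocalMove l r) : Skein.Move (tw l) (tw r) := by
  cases h with
  | exchange p q h =>
    have e1 : tw [p, q.moved (q.index + p.outs - p.ins)] =
        [(p.index, (tp p).2), (q.index + p.outs - p.ins, (tp q).2)] := by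
      simp only [tw, List.map_cons, List.map_nil, tp_moved]
      rw [tp_eq p]
    have e2 : tw [q, p] =
        [((q.index + p.outs - p.ins) - (tp p).2.high + (tp p).2.low, (tp q).2),
          (p.index, (tp p).2)] := by
      simp only [tw, List.map_cons, List.map_nil]
      rw [tp_eq p, tp_eq q]
      simp only [high_tp, low_tp]
      congr 2
      omega
    rw [e1, e2]
    apply Skein.Move.exchange
    rw [high_tp]
    omega
  | zigzag₁ i => exact Skein.Move.zigzagR i
  | zigzag₂ i => exact Skein.Move.zigzagL i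
  | slideBirth₁ i => exact Skein.Move.cupSlidePos i
  | slideBirth₂ i => exact Skein.Move.cupSlideNeg i
  | slideDeath₁ i => exact Skein.Move.capSlidePos i
  | slideDeath₂ i => exact Skein.Move.capSlideNeg i
  | second₁ i => exact Skein.Move.r2PosNeg i
  | second₂ i => exact Skein.Move.r2NegPos i
  | third i => exact Skein.Move.r3 i

/-! ### The bracket -/

section Bracket
variable {S : Type*} [CommRing S] {A Ai : S}

/-- the bracket of a diagram -/
noncomputable def brk (A Ai : S) (w : Word) : S := value (bracketOp A Ai) (tw w)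

theorem brk_local (hA : A * Ai = 1) {x l r y : Word} {n m : ℕ} (h : LocalMove l r)
    (hx : Skein.width 0 (tw x) = some n) (hl : Skein.width n (tw l) = some m)
    (hr : Skein.width n (tw r) = some m) :
    brk A Ai (x ++ l ++ y) = brk A Ai (x ++ r ++ y) := by
  have hM := bracket_model hA
  unfold brk value
  rw [tw_append, tw_append, tw_append, tw_append, eval_append, eval_append, eval_append,
    eval_append]
  apply eval_congr hM (tw x) 0 n _ _ hx _ [] rfl
  intro L hL
  exact move_rule hM (localMove_tw h) hl hr _ L hL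

theorem eval_birth_pos (hA : A * Ai = 1) (f : List Bool → S) :
    eval (bracketOp A Ai) [(0, Skein.Piece.cup), (0, Skein.Piece.pos)] f []
      = -Ai ^ 3 * eval (bracketOp A Ai) [(0, Skein.Piece.cup)] f [] := by
  simp [eval, act, bracketOp, cupF, capM, Skein.Piece.low]
  grind

theorem eval_birth_neg (hA : A * Ai = 1) (f : List Bool → S) :
    eval (bracketOp A Ai) [(0, Skein.Piece.cup), (0, Skein.Piece.neg)] f []
      = -A ^ 3 * eval (bracketOp A Ai) [(0, Skein.Piece.cup)] f [] := by
  simp [eval, act, bracketOp, cupF, capM, Skein.Piece.low]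
  grind

theorem eval_death_pos (hA : A * Ai = 1) (f : List Bool → S) (x y : Bool) :
    eval (bracketOp A Ai) [(0, Skein.Piece.pos), (0, Skein.Piece.cap)] f [x, y]
      = -Ai ^ 3 * eval (bracketOp A Ai) [(0, Skein.Piece.cap)] f [x, y] := by
  cases x <;> cases y <;> simp [eval, act, bracketOp, cupF, capM, Skein.Piece.low] <;> grind

theorem eval_death_neg (hA : A * Ai = 1) (f : List Bool → S) (x y : Bool) :
    eval (bracketOp A Ai) [(0, Skein.Piece.neg), (0, Skein.Piece.cap)] f [x, y]
      = -A ^ 3 * eval (bracketOp A Ai) [(0, Skein.Piece.cap)] f [x, y] := by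
  cases x <;> cases y <;> simp [eval, act, bracketOp, cupF, capM, Skein.Piece.low] <;> grind

theorem shift1 (i : ℕ) (p : Skein.Piece) : shiftWord i [(0, p)] = [(i, p)] := rfl

theorem shift2 (i : ℕ) (p q : Skein.Piece) : shiftWord i [(0, p), (0, q)] = [(i, p), (i, q)] := rfl

theorem brk_birthPos (hA : A * Ai = 1) {x y : Word} {n i : ℕ}
    (hx : Skein.width 0 (tw x) = some n) (hi : i ≤ n) :
    brk A Ai (x ++ [.birth i, .pos i] ++ y) = -Ai ^ 3 * brk A Ai (x ++ [.birth i] ++ y) := by
  have := value_smul' (bracket_model hA) (bracket_linear A Ai)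
    (X := [(0, Skein.Piece.cup), (0, Skein.Piece.pos)]) (Y := [(0, Skein.Piece.cup)])
    (n0 := 0) (m0 := 2) (-Ai ^ 3) rfl rfl
    (by intro f Z hZ; rw [List.length_eq_zero_iff.mp hZ]; exact eval_birth_pos hA f)
    (tw x) (tw y) n i hx (by omega)
  rw [shift1, shift2] at this
  simp only [brk, tw_append]
  exact this

theorem brk_birthNeg (hA : A * Ai = 1) {x y : Word} {n i : ℕ}
    (hx : Skein.width 0 (tw x) = some n) (hi : i ≤ n) :
    brk A Ai (x ++ [.birth i, .neg i] ++ y) = -A ^ 3 * brk A Ai (x ++ [.birth i] ++ y) := by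
  have := value_smul' (bracket_model hA) (bracket_linear A Ai)
    (X := [(0, Skein.Piece.cup), (0, Skein.Piece.neg)]) (Y := [(0, Skein.Piece.cup)])
    (n0 := 0) (m0 := 2) (-A ^ 3) rfl rfl
    (by intro f Z hZ; rw [List.length_eq_zero_iff.mp hZ]; exact eval_birth_neg hA f)
    (tw x) (tw y) n i hx (by omega)
  rw [shift1, shift2] at this
  simp only [brk, tw_append]
  exact this

theorem brk_deathPos (hA : A * Ai = 1) {x y : Word} {n i : ℕ}
    (hx : Skein.width 0 (tw x) = some n) (hi : i + 2 ≤ n) :
    brk A Ai (x ++ [.pos i, .death i] ++ y) = -Ai ^ 3 * brk A Ai (x ++ [.death i] ++ y) := by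
  have := value_smul' (bracket_model hA) (bracket_linear A Ai)
    (X := [(0, Skein.Piece.pos), (0, Skein.Piece.cap)]) (Y := [(0, Skein.Piece.cap)])
    (n0 := 2) (m0 := 0) (-Ai ^ 3) rfl rfl
    (by
      intro f Z hZ
      obtain ⟨a, b, rfl⟩ := List.length_eq_two.mp hZ
      exact eval_death_pos hA f a b)
    (tw x) (tw y) n i hx (by omega)
  rw [shift1, shift2] at this
  simp only [brk, tw_append]
  exact this

theorem brk_deathNeg (hA : A * Ai = 1) {x y : Word} {n i : ℕ}
    (hx : Skein.width 0 (tw x) = some n) (hi : i + 2 ≤ n) :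
    brk A Ai (x ++ [.neg i, .death i] ++ y) = -A ^ 3 * brk A Ai (x ++ [.death i] ++ y) := by
  have := value_smul' (bracket_model hA) (bracket_linear A Ai)
    (X := [(0, Skein.Piece.neg), (0, Skein.Piece.cap)]) (Y := [(0, Skein.Piece.cap)])
    (n0 := 2) (m0 := 0) (-A ^ 3) rfl rfl
    (by
      intro f Z hZ
      obtain ⟨a, b, rfl⟩ := List.length_eq_two.mp hZ
      exact eval_death_neg hA f a b)
    (tw x) (tw y) n i hx (by omega)
  rw [shift1, shift2] at this
  simp only [brk, tw_append]
  exact this

theorem brk_pos (hA : A * Ai = 1) {x y : Word} {n i : ℕ}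
    (hx : Skein.width 0 (tw x) = some n) (hi : i + 2 ≤ n) :
    brk A Ai (x ++ [.pos i] ++ y) =
      A * brk A Ai (x ++ y) + Ai * brk A Ai (x ++ [.death i, .birth i] ++ y) := by
  have := value_lin2 (bracket_model hA) (bracket_linear A Ai)
    (X := [(0, Skein.Piece.pos)]) (Y := []) (W := [(0, Skein.Piece.cap), (0, Skein.Piece.cup)])
    (n0 := 2) A Ai rfl rfl rfl
    (by
      intro f Z hZ
      obtain ⟨a, b, rfl⟩ := List.length_eq_two.mp hZ
      cases a <;> cases b <;> simp [eval, act, bracketOp, cupF, capM, Skein.Piece.low])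
    (tw x) (tw y) n i hx (by omega)
  rw [shift1, shift2] at this
  simp only [shiftWord, List.map_nil, List.append_nil] at this
  simp only [brk, tw_append]
  exact this

theorem brk_neg (hA : A * Ai = 1) {x y : Word} {n i : ℕ}
    (hx : Skein.width 0 (tw x) = some n) (hi : i + 2 ≤ n) :
    brk A Ai (x ++ [.neg i] ++ y) =
      Ai * brk A Ai (x ++ y) + A * brk A Ai (x ++ [.death i, .birth i] ++ y) := by
  have := value_lin2 (bracket_model hA) (bracket_linear A Ai)
    (X := [(0, Skein.Piece.neg)]) (Y := []) (W := [(0, Skein.Piece.cap), (0, Skein.Piece.cup)])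
    (n0 := 2) Ai A rfl rfl rfl
    (by
      intro f Z hZ
      obtain ⟨a, b, rfl⟩ := List.length_eq_two.mp hZ
      cases a <;> cases b <;> simp [eval, act, bracketOp, cupF, capM, Skein.Piece.low])
    (tw x) (tw y) n i hx (by omega)
  rw [shift1, shift2] at this
  simp only [shiftWord, List.map_nil, List.append_nil] at this
  simp only [brk, tw_append]
  exact this

end Bracket

end Pool.Agent.H837R2.Jones
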