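import Mathlib

/-!
# Oriented link diagrams and the Jones polynomial

A link diagram in the plane is cut by horizontal lines into elementary pieces, read from top to
bottom.  Between two pieces there are finitely many vertical strands, numbered `0, 1, 2, ...` from
left to right. Every tame oriented link in the 3-sphere has such a diagram, and two diagrams
represent isotopic links if and only if they are related by the moves below (planar isotopy of
sliced diagrams and the Reidemeister moves).
-/

set_option autoImplicit false

namespace Pool.Agent.H837R2.Jones

open LaurentPolynomial

/-! ### Unoriented pieces and the local moves -/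

/-- The elementary pieces of a sliced link diagram:
* `birth i`: a local maximum, creating two new adjacent strands at the positions `i` and `i+1`;
* `death i`: a local minimum, joining the adjacent strands at the positions `i` and `i+1`;
* `pos i`: a crossing of the strands `i` and `i+1` in which the strand running from top right to
  bottom left passes over the other one (it is a positive crossing if both strands are oriented
  downwards);
* `neg i`: the opposite crossing, where the strand running from top left to bottom right passes
  over. -/
inductive Piece : Type
  | birth (i : ℕ) : Piece
  | death (i : ℕ) : Piece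
  | pos (i : ℕ) : Piece
  | neg (i : ℕ) : Piece
  deriving DecidableEq

/-- Diagrams without orientations (possibly with endpoints at the top and at the bottom): lists of
pieces, read from top to bottom. -/
abbrev Word : Type := List Piece

namespace Piece

/-- The number of strands a piece uses at its top. -/
def ins : Piece → ℕ
  | birth _ => 0
  | _ => 2

/-- The number of strands a piece has at its bottom. -/
def outs : Piece → ℕ
  | death _ => 0
  | _ => 2

/-- The position of a piece. -/
def index : Piece → ℕ
  | birth i => i
  | death i => i
  | pos i => i
  | neg i => i

/-- The same kind of piece, at position `j`. -/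
def moved (j : ℕ) : Piece → Piece
  | birth _ => birth j
  | death _ => death j
  | pos _ => pos j
  | neg _ => neg j

end Piece

open Piece

/-- The local moves which generate regular isotopy of sliced diagrams: planar isotopy (exchange of
the heights of two pieces which are next to each other, straightening of a zigzag, sliding a
crossing through a maximum or a minimum) and the Reidemeister moves II and III. -/
inductive LocalMove : Word → Word → Prop
  | exchange (p q : Piece) (h : p.index + p.ins ≤ q.index) :
      LocalMove [p, q.moved (q.index + p.outs - p.ins)] [q, p]
  | zigzag₁ (i : ℕ) : LocalMove [birth i, death (i + 1)] []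
  | zigzag₂ (i : ℕ) : LocalMove [birth (i + 1), death i] []
  | slideBirth₁ (i : ℕ) : LocalMove [birth i, pos (i + 1)] [birth (i + 1), neg i]
  | slideBirth₂ (i : ℕ) : LocalMove [birth i, neg (i + 1)] [birth (i + 1), pos i]
  | slideDeath₁ (i : ℕ) : LocalMove [pos (i + 1), death i] [neg i, death (i + 1)]
  | slideDeath₂ (i : ℕ) : LocalMove [neg (i + 1), death i] [pos i, death (i + 1)]
  | second₁ (i : ℕ) : LocalMove [pos i, neg i] []
  | second₂ (i : ℕ) : LocalMove [neg i, pos i] []
  | third (i : ℕ) : LocalMove [pos i, pos (i + 1), pos i] [pos (i + 1), pos i, pos (i + 1)]

/-- The first Reidemeister move (removal of a curl). -/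
inductive FirstMove : Word → Word → Prop
  | birthPos (i : ℕ) : FirstMove [birth i, pos i] [birth i]
  | birthNeg (i : ℕ) : FirstMove [birth i, neg i] [birth i]
  | deathPos (i : ℕ) : FirstMove [pos i, death i] [death i]
  | deathNeg (i : ℕ) : FirstMove [neg i, death i] [death i]

/-! ### Oriented diagrams -/

/-- The elementary pieces of an oriented sliced diagram. In `birth i b`, the left one of the two new
strands is directed downwards if `b = true` and upwards if `b = false` (and the right one the other
way); the directions of all other strands follow. -/
inductive OPiece : Type
  | birth (i : ℕ) (b : Bool) : OPiece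
  | death (i : ℕ) : OPiece
  | pos (i : ℕ) : OPiece
  | neg (i : ℕ) : OPiece
  deriving DecidableEq

/-- Oriented diagrams, read from top to bottom. -/
abbrev OWord : Type := List OPiece

namespace OPiece

/-- Forgetting the orientation. -/
def forget : OPiece → Piece
  | birth i _ => Piece.birth i
  | death i => Piece.death i
  | pos i => Piece.pos i
  | neg i => Piece.neg i

/-- The directions (`true` = downwards) of the strands below the piece, from left to right, if `d`
lists the directions of the strands above it; `none` if the piece does not fit. A minimum has to
join two strands with opposite directions. -/
def below : OPiece → List Bool → Option (List Bool)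
  | birth i b, d => if i ≤ d.length then some (d.take i ++ [b, !b] ++ d.drop i) else none
  | death i, d =>
    match d.drop i with
    | x :: y :: r => if x = !y then some (d.take i ++ r) else none
    | _ => none
  | pos i, d =>
    match d.drop i with
    | x :: y :: r => some (d.take i ++ [y, x] ++ r)
    | _ => none
  | neg i, d =>
    match d.drop i with
    | x :: y :: r => some (d.take i ++ [y, x] ++ r)
    | _ => none

end OPiece

/-- The directions of the strands below an oriented diagram, from the directions above it. -/
def below : OWord → List Bool → Option (List Bool)
  | [], d => some d
  | p :: w, d => (p.below d).bind (below w)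

/-- Oriented link diagrams: at least one component, no endpoints, and the orientations match. -/
def IsLinkDiagram (w : OWord) : Prop := w ≠ [] ∧ below w [] = some []

/-- The underlying unoriented diagram. -/
def forget (w : OWord) : Word := w.map OPiece.forget

/-- Two oriented link diagrams differ by one move of sliced diagrams (planar isotopy or a
Reidemeister move), compatible with the orientations. -/
inductive Step : OWord → OWord → Prop
  | mk (x l r y : OWord) (d e : List Bool) :
      LocalMove (forget l) (forget r) ∨ FirstMove (forget l) (forget r) →
      below x [] = some d → below l d = some e → below r d = some e → below y e = some [] →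
      Step (x ++ l ++ y) (x ++ r ++ y)

/-- Isotopy of oriented links, for their diagrams. -/
def Isotopic : OWord → OWord → Prop := Relation.EqvGen Step

/-- The crossingless circle. -/
def circle : OWord := [OPiece.birth 0 true, OPiece.death 0]

/-- `Triple P N O`: the link diagrams `P`, `N`, `O` coincide outside a disc, inside which they are a
positive crossing, a negative crossing and the smoothing which respects the orientations. The
crossing involves the strands `i` and `i+1`, below the part `x` and above the part `y` of the
diagrams; these two strands are both directed downwards or both upwards (`parallel`), or they have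
opposite directions (`antiparallel`). -/
inductive Triple : OWord → OWord → OWord → Prop
  | parallel (x y : OWord) (i : ℕ) (d : List Bool) (b : Bool) :
      below x [] = some d → d[i]? = some b → d[i + 1]? = some b →
      IsLinkDiagram (x ++ [OPiece.pos i] ++ y) →
      Triple (x ++ [OPiece.pos i] ++ y) (x ++ [OPiece.neg i] ++ y) (x ++ y)
  | antiparallel (x y : OWord) (i : ℕ) (d : List Bool) (b : Bool) :
      below x [] = some d → d[i]? = some b → d[i + 1]? = some (!b) →
      IsLinkDiagram (x ++ [OPiece.pos i] ++ y) →
      Triple (x ++ [OPiece.neg i] ++ y) (x ++ [OPiece.pos i] ++ y) (x ++ [OPiece.death i, OPiece.birth i (!b)] ++ y)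

/-! ### The Jones polynomial -/

/-- The ring `ℤ[t^{±1/2}]`: Laurent polynomials in the variable `t^{1/2}`. -/
abbrev R : Type := LaurentPolynomial ℤ

/-- The element `t^{n/2}`. -/
noncomputable abbrev tHalf (n : ℤ) : R := T n

/-- `V` is the Jones polynomial: an invariant of oriented links with value `1` on the unknot and
`t⁻¹ V(L₊) - t V(L₋) = (t^{1/2} - t^{-1/2}) V(L₀)`. -/
structure IsJones (V : OWord → R) : Prop where
  isotopy : ∀ D E : OWord, Isotopic D E → V D = V E
  unknot : V circle = 1
  skein : ∀ P N O : OWord, Triple P N O →
    tHalf (-2) * V P - tHalf 2 * V N = (tHalf 1 - tHalf (-1)) * V O

/-- `p` has span `n`: the largest exponent of `t` occurring in `p` minus the smallest one is `n`,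
that is, `2 n` in terms of the exponents of `t^{1/2}`. -/
def HasSpan (p : R) (n : ℕ) : Prop :=
  ∃ a b : ℤ, IsLeast {k | p.coeff k ≠ 0} a ∧ IsGreatest {k | p.coeff k ≠ 0} b ∧ b - a = 2 * n

/-- The set of the Jones polynomials of span `n` of all oriented links. -/
def jonesOfSpan (V : OWord → R) (n : ℕ) : Set R :=
  {p | HasSpan p n ∧ ∃ D : OWord, IsLinkDiagram D ∧ V D = p}

end Pool.Agent.H837R2.Jones
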