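import Pool.Agent.H837R2.Jones.Inv

set_option autoImplicit false
set_option linter.unusedSimpArgs false

namespace Pool.Agent.H837R2.Jones

open LaurentPolynomial
open Pool.Agent.Helper62.StateSum Pool.Agent.Helper62.BracketRing

/-! ### parity of the exponents -/

theorem coeff_T_mul (i k : ℤ) (f : RA) : (T i * f).coeff k = f.coeff (k - i) := by
  rw [T, AddMonoidAlgebra.coeff_single_mul_apply, one_mul, neg_add_eq_sub]

/-- all exponents of `p` are congruent to `n` modulo 2 -/
def Par (n : ℤ) (p : RA) : Prop := ∀ k, p.coeff k ≠ 0 → (k - n) % 2 = 0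

theorem Par.zero (n : ℤ) : Par n 0 := by
  intro k hk
  exact absurd (by simp) hk

theorem Par.one : Par 0 1 := by
  intro k hk
  have : (1 : RA) = T 0 := rfl
  rw [this, T_apply] at hk
  split_ifs at hk with h
  · omega
  · exact absurd rfl hk

theorem Par.add {n : ℤ} {p q : RA} (hp : Par n p) (hq : Par n q) : Par n (p + q) := by
  intro k hk
  by_contra hc
  apply hk
  have h1 : p.coeff k = 0 := by
    by_contra h; exact hc (hp k h)
  have h2 : q.coeff k = 0 := by
    by_contra h; exact hc (hq k h)
  simp [h1, h2]

theorem Par.neg {n : ℤ} {p : RA} (hp : Par n p) : Par n (-p) := by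
  intro k hk
  apply hp k
  simpa using hk

theorem Par.sub {n : ℤ} {p q : RA} (hp : Par n p) (hq : Par n q) : Par n (p - q) := by
  rw [sub_eq_add_neg]
  exact hp.add hq.neg

theorem Par.Tmul {n : ℤ} {p : RA} (hp : Par n p) (i : ℤ) : Par (n + i) (T i * p) := by
  intro k hk
  rw [coeff_T_mul] at hk
  have := hp _ hk
  omega

theorem Par.congr {n m : ℤ} {p : RA} (hp : Par n p) (h : (n - m) % 2 = 0) : Par m p := by
  intro k hk
  have := hp k hk
  omega

theorem Par.aa_mul {n : ℤ} {p : RA} (hp : Par n p) : Par (n + 1) (aa * p) := hp.Tmul 1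

theorem Par.ai_mul {n : ℤ} {p : RA} (hp : Par n p) : Par (n + 1) (ai * p) :=
  (hp.Tmul (-1)).congr (by omega)

theorem Par.cap {n : ℤ} {p : RA} (hp : Par n p) (a b : Bool) : Par (n + 1) (capM aa ai a b * p) := by
  cases a <;> cases b <;> simp only [capM]
  · rw [zero_mul]; exact Par.zero _
  · exact hp.ai_mul
  · rw [neg_mul]; exact hp.aa_mul.neg
  · rw [zero_mul]; exact Par.zero _

theorem par_op (p : Pool.Agent.Helper62.Skein.Piece) {g : List Bool → RA} {n : ℤ}
    (hg : ∀ l, Par n (g l)) (Z : List Bool) : Par (n + 1) (bracketOp aa ai p g Z) := by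
  have hcup : Par (n + 1) (cupF aa ai g) := by
    unfold cupF
    exact (hg _).aa_mul.sub (hg _).ai_mul
  match p, Z with
  | .cup, _ => exact hcup
  | .cap, [c, d] => exact (hg _).cap c d
  | .pos, [c, d] =>
    exact (hg _).aa_mul.add (((hcup.cap c d).ai_mul).congr (by omega))
  | .neg, [c, d] =>
    exact (hg _).ai_mul.add (((hcup.cap c d).aa_mul).congr (by omega))
  | .cap, [] => exact Par.zero _
  | .cap, [_] => exact Par.zero _
  | .cap, _ :: _ :: _ :: _ => exact Par.zero _
  | .pos, [] => exact Par.zero _
  | .pos, [_] => exact Par.zero _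
  | .pos, _ :: _ :: _ :: _ => exact Par.zero _
  | .neg, [] => exact Par.zero _
  | .neg, [_] => exact Par.zero _
  | .neg, _ :: _ :: _ :: _ => exact Par.zero _

theorem par_eval (w : List (ℕ × Pool.Agent.Helper62.Skein.Piece)) {g : List Bool → RA} {n : ℤ}
    (hg : ∀ l, Par n (g l)) (l : List Bool) : Par (n + w.length) (eval (bracketOp aa ai) w g l) := by
  induction w generalizing l with
  | nil => simpa [eval] using hg l
  | cons s w ih =>
    obtain ⟨k, p⟩ := s
    have := par_op p (g := fun Y => eval (bracketOp aa ai) w g (l.take k ++ Y ++ l.drop (k + p.low)))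
      (fun Y => ih _) ((l.drop k).take p.low)
    refine Par.congr this ?_
    rw [List.length_cons]
    push_cast
    omega

theorem par_unit (l : List Bool) : Par 0 (unitFun l : RA) := by
  cases l with
  | nil => exact Par.one
  | cons _ _ => exact Par.zero _

theorem par_red (w : Word) : Par w.length (red aa ai (tw w)) := by
  cases w with
  | nil => exact Par.zero _
  | cons p w =>
    have := (par_eval (tw w) par_unit [false, true]).aa_mul
    refine Par.congr this ?_
    simp [tw]

theorem par_sg {n : ℤ} {p : RA} (hp : Par n p) (m : ℤ) : Par n (sg m * p) := by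
  rcases Int.even_or_odd m with h | h
  · rw [sg, Int.negOnePow_even m h]
    simpa using hp
  · rw [sg, Int.negOnePow_odd m h]
    simpa using hp.neg

/-! ### parity of the writhe -/

theorem wr_parity {w : OWord} : ∀ {d e : List Bool}, below w d = some e →
    (2 * ((w.length : ℤ) - wr w d) - ((e.length : ℤ) - d.length)) % 4 = 0 := by
  induction w with
  | nil =>
    intro d e h
    change some d = some e at h
    injection h with h
    rw [h, wr]
    simp
  | cons p w ih =>
    intro d f h
    obtain ⟨e, h1, h2⟩ := below_cons h
    have h3 := ih h2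
    rw [wr_cons h1]
    cases p with
    | birth i b =>
      obtain ⟨P, Q, rfl, rfl, rfl⟩ := birth_below h1
      simp only [sign, List.length_cons, List.length_append] at h3 ⊢
      push_cast at h3 ⊢
      omega
    | death i =>
      obtain ⟨P, b, Q, rfl, rfl, rfl⟩ := death_below h1
      simp only [sign, List.length_cons, List.length_append] at h3 ⊢
      push_cast at h3 ⊢
      omega
    | pos i =>
      obtain ⟨P, x, y, Q, rfl, rfl, rfl⟩ := pos_below h1
      rw [sign_pos]
      simp only [List.length_cons, List.length_append] at h3 ⊢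
      push_cast at h3 ⊢
      split_ifs <;> omega
    | neg i =>
      obtain ⟨P, x, y, Q, rfl, rfl, rfl⟩ := neg_below h1
      rw [sign_neg]
      simp only [List.length_cons, List.length_append] at h3 ⊢
      push_cast at h3 ⊢
      split_ifs <;> omega

/-! ### the invariant in `ℤ[A^{±1}]` -/

/-- the Jones polynomial as an element of `ℤ[A^{±1}]`, `t = A⁻⁴` -/
noncomputable def VA (D : OWord) : RA := fr (wr D []) * red aa ai (tw (forget D))

theorem big_eq {D : OWord} (h : IsLinkDiagram D) : big D = (-aa ^ 2 - ai ^ 2) * VA D := by
  have hw := width_tw h.2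
  have hne : tw (forget D) ≠ [] := by
    intro hc
    apply h.1
    simpa [tw, forget] using hc
  unfold big VA brk
  rw [value_eq aa_ai hw hne]
  ring

theorem delta_ne : (-aa ^ 2 - ai ^ 2 : RA) ≠ 0 := by
  intro h
  have := congrArg (fun p : RA => p.coeff 2) h
  simp only [aa, ai, T_pow] at this
  simp at this

theorem par_VA {D : OWord} (h : IsLinkDiagram D) : Par 0 (VA D) := by
  have h1 := wr_parity h.2
  have h2 := par_red (forget D)
  unfold VA fr
  rw [mul_assoc]
  apply par_sg
  have h3 := h2.Tmul (-3 * wr D [])
  refine h3.congr ?_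
  simp only [forget, List.length_map] at h1 ⊢
  simp only [List.length_nil] at h1
  push_cast at h1 ⊢
  omega

/-- `t^{1/2} ↦ A⁻²` -/
noncomputable def phi : R →+* RA :=
  AddMonoidAlgebra.mapDomainRingHom ℤ (AddMonoidHom.mulLeft (-2 : ℤ))

theorem phi_T (n : ℤ) : phi (T n) = T (-2 * n) := by
  unfold phi
  rw [T, AddMonoidAlgebra.mapDomainRingHom_apply, AddMonoidAlgebra.mapDomain_single]
  rfl

theorem phi_injective : Function.Injective phi := by
  intro p q h
  apply AddMonoidAlgebra.mapDomain_injective (f := fun n : ℤ => -2 * n)
  · intro a b hab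
    simpa using hab
  · exact h

theorem phi_C (a : ℤ) : phi (C a) = C a := by
  have h1 : (C a : R) = (a : R) := by
    exact (map_intCast C a)
  rw [h1]
  exact map_intCast phi a

theorem exists_phi (p : RA) (hp : Par 0 p) : ∃ q, phi q = p := by
  classical
  have key : ∀ (s : Finset ℤ) (p : RA), p.coeff.support = s → Par 0 p → ∃ q, phi q = p := by
    intro s
    induction s using Finset.induction_on with
    | empty =>
      intro p h _
      refine ⟨0, ?_⟩
      rw [map_zero]
      ext k
      have : k ∉ p.coeff.support := by rw [h]; simp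
      rw [Finsupp.notMem_support_iff] at this
      rw [this]
      simp
    | insert a s ha ih =>
      intro p h hp
      have hne : p.coeff a ≠ 0 := by
        rw [← Finsupp.mem_support_iff, h]
        simp
      have hpar := hp a hne
      obtain ⟨m, hm⟩ : ∃ m, a = -2 * m := ⟨-(a / 2), by omega⟩
      have hq : ∀ k, (p - C (p.coeff a) * T a).coeff k = if k = a then 0 else p.coeff k := by
        intro k
        have : (C (p.coeff a) * T a : RA).coeff k = if k = a then p.coeff a else 0 := by
          rw [← single_eq_C_mul_T, AddMonoidAlgebra.coeff_single, Finsupp.single_apply]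
          by_cases hk : k = a
          · rw [if_pos hk.symm, if_pos hk]
          · rw [if_neg (fun h => hk h.symm), if_neg hk]
        rw [AddMonoidAlgebra.coeff_sub, Finsupp.sub_apply, this]
        split_ifs with hk
        · rw [hk, sub_self]
        · rw [sub_zero]
      obtain ⟨q, hq'⟩ := ih (p - C (p.coeff a) * T a) (by
        ext k
        rw [Finsupp.mem_support_iff, hq]
        constructor
        · intro hk
          split_ifs at hk with hka
          · exact absurd rfl hk
          · have : k ∈ insert a s := by rw [← h, Finsupp.mem_support_iff]; exact hk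
            exact (Finset.mem_insert.mp this).resolve_left hka
        · intro hk
          have hka : k ≠ a := fun e => ha (e ▸ hk)
          rw [if_neg hka, ← Finsupp.mem_support_iff, h]
          exact Finset.mem_insert_of_mem hk) (by
        intro k hk
        rw [hq] at hk
        split_ifs at hk with hka
        · exact absurd rfl hk
        · exact hp k hk)
      refine ⟨q + C (p.coeff a) * T m, ?_⟩
      rw [map_add, map_mul, hq', phi_C, phi_T, ← hm]
      ring
  exact key _ p rfl hp

open Classical in
/-- the Jones polynomial -/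
noncomputable def V0 (D : OWord) : R :=
  if h : ∃ q, phi q = VA D then h.choose else 0

theorem phi_V0 {D : OWord} (h : IsLinkDiagram D) : phi (V0 D) = VA D := by
  have h1 := exists_phi _ (par_VA h)
  rw [V0, dif_pos h1]
  exact h1.choose_spec

theorem V0_eq_of_big {D E : OWord} (hD : IsLinkDiagram D) (hE : IsLinkDiagram E)
    (h : big D = big E) : V0 D = V0 E := by
  rw [big_eq hD, big_eq hE] at h
  have := mul_left_cancel₀ delta_ne h
  apply phi_injective
  rw [phi_V0 hD, phi_V0 hE, this]

theorem nil_move {l r : OWord} {d e : List Bool}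
    (h : LocalMove (forget l) (forget r) ∨ FirstMove (forget l) (forget r))
    (hl : below l d = some e) (hd : d = []) : l ≠ [] ∧ r ≠ [] := by
  subst hd
  constructor
  · rintro rfl
    rcases h with h | h
    · generalize hL : forget [] = L at h
      generalize forget r = R' at h
      cases h <;> cases hL
    · generalize hL : forget [] = L at h
      generalize forget r = R' at h
      cases h <;> cases hL
  · rintro rfl
    rcases h with h | h
    · generalize hL : forget l = L at h
      generalize hR : forget [] = R' at h
      cases h with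
      | exchange p q h => cases hR
      | zigzag₁ i =>
        obtain ⟨p1, q1, rfl, hp1, hq1⟩ := forget_two hL
        obtain ⟨b, rfl⟩ := eq_birth hp1
        obtain rfl := eq_death hq1
        obtain ⟨d1, h1, h2⟩ := below_cons hl
        obtain ⟨P, Q, h3, rfl, rfl⟩ := birth_below h1
        obtain ⟨rfl, rfl⟩ := List.append_eq_nil_iff.mp h3.symm
        obtain ⟨d2, h4, -⟩ := below_cons h2
        obtain ⟨P', b', Q', h5, h6, -⟩ := death_below h4
        have := congrArg List.length h5
        simp at this h6
        omega
      | zigzag₂ i =>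
        obtain ⟨p1, q1, rfl, hp1, hq1⟩ := forget_two hL
        obtain ⟨b, rfl⟩ := eq_birth hp1
        obtain ⟨d1, h1, h2⟩ := below_cons hl
        obtain ⟨P, Q, h3, h4, rfl⟩ := birth_below h1
        have := congrArg List.length h3
        simp at this h4
        omega
      | slideBirth₁ i => cases hR
      | slideBirth₂ i => cases hR
      | slideDeath₁ i => cases hR
      | slideDeath₂ i => cases hR
      | second₁ i =>
        obtain ⟨p1, q1, rfl, hp1, hq1⟩ := forget_two hL
        obtain rfl := eq_pos hp1
        obtain ⟨d1, h1, h2⟩ := below_cons hl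
        obtain ⟨P, x, y, Q, h3, h4, rfl⟩ := pos_below h1
        have := congrArg List.length h3
        simp at this
      | second₂ i =>
        obtain ⟨p1, q1, rfl, hp1, hq1⟩ := forget_two hL
        obtain rfl := eq_neg hp1
        obtain ⟨d1, h1, h2⟩ := below_cons hl
        obtain ⟨P, x, y, Q, h3, h4, rfl⟩ := neg_below h1
        have := congrArg List.length h3
        simp at this
      | third i => cases hR
    · generalize hR : forget [] = R' at h
      generalize forget l = L at h
      cases h <;> cases hR

theorem step_link {D E : OWord} (h : Step D E) : IsLinkDiagram D ∧ IsLinkDiagram E := by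
  obtain ⟨x, l, r, y, d, e, h, hx, hl, hr, hy⟩ := h
  have c1 : below (x ++ l ++ y) [] = some [] := by
    rw [List.append_assoc, below_append_some hx, below_append_some hl, hy]
  have c2 : below (x ++ r ++ y) [] = some [] := by
    rw [List.append_assoc, below_append_some hx, below_append_some hr, hy]
  have key : (x ++ l ++ y ≠ []) ∧ (x ++ r ++ y ≠ []) := by
    by_cases hxn : x = []
    · subst hxn
      injection hx with hx
      obtain ⟨h1, h2⟩ := nil_move h hl hx.symm
      simp [h1, h2]
    · simp [hxn]
  exact ⟨⟨key.1, c1⟩, ⟨key.2, c2⟩⟩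

theorem V0_isotopic {D E : OWord} (h : Isotopic D E) : V0 D = V0 E := by
  induction h with
  | rel _ _ h =>
    obtain ⟨h1, h2⟩ := step_link h
    exact V0_eq_of_big h1 h2 (big_step h)
  | refl _ => rfl
  | symm _ _ _ h => exact h.symm
  | trans _ _ _ _ _ h1 h2 => exact h1.trans h2

theorem circle_link : IsLinkDiagram circle := by
  constructor
  · simp [circle]
  · rfl

theorem V0_circle : V0 circle = 1 := by
  apply phi_injective
  rw [phi_V0 circle_link, map_one]
  have h1 : wr circle [] = 0 := rfl
  have h2 : red aa ai (tw (forget circle)) = aa * ai := by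
    simp [red, tw, forget, circle, OPiece.forget, tp, eval, act, bracketOp, capM,
      Pool.Agent.Helper62.Skein.Piece.low, unitFun]
  unfold VA
  rw [h1, h2, aa_ai, mul_one, fr, sg]
  simp

theorem triple_link {P N O : OWord} (h : Triple P N O) :
    IsLinkDiagram P ∧ IsLinkDiagram N ∧ IsLinkDiagram O := by
  cases h with
  | parallel x y i d b hx h1 h2 hD =>
    obtain ⟨P, Q, rfl, rfl⟩ := split_get h1 h2
    have c0 := hD.2
    rw [List.append_assoc, below_append_some hx] at c0
    have c1 : below y (P ++ b :: b :: Q) = some [] := by
      rw [← c0, List.singleton_append, below_cons_some (below_pos _ _ _ _)]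
    have hxn : x ≠ [] := by
      rintro rfl
      injection hx with hx
      simp at hx
    refine ⟨hD, ⟨by simp, ?_⟩, ⟨by simp [hxn], ?_⟩⟩
    · rw [List.append_assoc, below_append_some hx, List.singleton_append,
        below_cons_some (below_neg _ _ _ _), c1]
    · rw [below_append_some hx, c1]
  | antiparallel x y i d b hx h1 h2 hD =>
    obtain ⟨P, Q, rfl, rfl⟩ := split_get h1 h2
    have c0 := hD.2
    rw [List.append_assoc, below_append_some hx] at c0
    have c1 : below y (P ++ (!b) :: b :: Q) = some [] := by
      rw [← c0, List.singleton_append, below_cons_some (below_pos _ _ _ _)]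
    refine ⟨⟨by simp, ?_⟩, hD, ⟨by simp, ?_⟩⟩
    · rw [List.append_assoc, below_append_some hx, List.singleton_append,
        below_cons_some (below_neg _ _ _ _), c1]
    · have f1 : (OPiece.birth P.length (!b)).below (P ++ Q) = some (P ++ (!b) :: b :: Q) := by
        rw [below_birth, Bool.not_not]
      rw [List.append_assoc, below_append_some hx, List.cons_append, List.cons_append,
        List.nil_append, below_cons_some (below_death _ _ _), below_cons_some f1, c1]

theorem V0_skein {P N O : OWord} (h : Triple P N O) :
    tHalf (-2) * V0 P - tHalf 2 * V0 N = (tHalf 1 - tHalf (-1)) * V0 O := by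
  obtain ⟨hP, hN, hO⟩ := triple_link h
  have h1 := big_skein h
  rw [big_eq hP, big_eq hN, big_eq hO] at h1
  apply phi_injective
  rw [map_sub, map_mul, map_mul, map_mul, map_sub, phi_V0 hP, phi_V0 hN, phi_V0 hO,
    phi_T, phi_T, phi_T, phi_T]
  have e1 : (T (-2 * -2) : RA) = aa ^ 4 := by rw [aa, T_pow]; norm_num
  have e2 : (T (-2 * 2) : RA) = ai ^ 4 := by rw [ai, T_pow]; norm_num
  have e3 : (T (-2 * 1) : RA) = ai ^ 2 := by rw [ai, T_pow]; norm_num
  have e4 : (T (-2 * -1) : RA) = aa ^ 2 := by rw [aa, T_pow]; norm_num
  rw [e1, e2, e3, e4]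
  apply mul_left_cancel₀ delta_ne
  linear_combination h1

theorem V0_isJones : IsJones V0 :=
  ⟨fun _ _ h => V0_isotopic h, V0_circle, fun _ _ _ h => V0_skein h⟩

end Pool.Agent.H837R2.Jones
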