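import Pool.Agent.H837R2.Jones.Formula

set_option autoImplicit false
set_option linter.unusedSimpArgs false

namespace Pool.Agent.H837R2.Jones

open LaurentPolynomial Matrix

/-! ### odd powers of the half twist -/

/-- the word of `Δ^n` -/
def dw : ℕ → List Bool
  | 0 => []
  | n + 1 => [false, true, false] ++ dw n

theorem dw_length (n : ℕ) : (dw n).length = 3 * n := by
  induction n with
  | zero => rfl
  | succ n ih => rw [dw, List.length_append, ih]; simp; ring

theorem mat_delta : mat [false, true, false] = !![0, -tHalf 2; -tHalf 4, 0] := by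
  rw [th4]
  have : mat [false, true, false] = bur false * (bur true * bur false) := by simp [mat]
  rw [this]
  unfold bur
  generalize (tHalf 2 : R) = d
  refine Matrix.ext fun i j => ?_
  fin_cases i <;> fin_cases j <;> simp [Matrix.mul_apply, Fin.sum_univ_two]

theorem mat_odd (k : ℕ) : ∃ x y : R, mat (dw (2 * k + 1)) = !![0, x; y, 0] := by
  induction k with
  | zero =>
    refine ⟨-tHalf 2, -tHalf 4, ?_⟩
    have : dw (2 * 0 + 1) = [false, true, false] := rfl
    rw [this, mat_delta]
  | succ k ih =>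
    obtain ⟨x, y, h⟩ := ih
    have e : dw (2 * (k + 1) + 1) =
        [false, true, false] ++ ([false, true, false] ++ dw (2 * k + 1)) := rfl
    rw [e, mat_append, mat_append, h, mat_delta]
    generalize (tHalf 2 : R) = d
    generalize (tHalf 4 : R) = d'
    refine ⟨-d * (-d' * x), -d' * (-d * y), ?_⟩
    refine Matrix.ext fun i j => ?_
    fin_cases i <;> fin_cases j <;> simp [Matrix.mul_apply, Fin.sum_univ_two]

/-- the Jones polynomial of the closure of `Δ^{2k+1}` -/
theorem jf_odd (k : ℕ) : jf (dw (2 * k + 1)) = -(T (6 * k + 3) * (T 2 + T (-2))) := by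
  obtain ⟨x, y, h⟩ := mat_odd k
  have ht : (mat (dw (2 * k + 1))).trace = 0 := by
    rw [h]
    simp [Matrix.trace, Fin.sum_univ_two]
  rw [jf, ht, dw_length, add_zero, neg_pow, T_pow]
  have hodd : Odd (3 * (2 * k + 1)) := by
    refine ⟨3 * k + 1, by ring⟩
  rw [hodd.neg_one_pow]
  have e : ((3 * (2 * k + 1) : ℕ) : ℤ) * 1 = 6 * k + 3 := by push_cast; ring
  rw [e]
  ring

/-! ### adding a circle -/

/-- `-(t^{1/2} + t^{-1/2})` -/
noncomputable def dl : R := -(tHalf 1 + tHalf (-1))

theorem add_circle {V : OWord → R} (hV : IsJones V) (x : OWord) (b : Bool)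
    (hx : below x [] = some [b, !b]) :
    V (x ++ [OPiece.death 0, OPiece.birth 0 (!b), OPiece.death 0]) =
      dl * V (x ++ [OPiece.death 0]) := by
  have hd : below [OPiece.death 0] [b, !b] = some [] := by cases b <;> decide
  have hd' : below [OPiece.death 0] [!b, b] = some [] := by cases b <;> decide
  have hp : below [OPiece.pos 0, OPiece.death 0] [b, !b] = some [] := by cases b <;> decide
  have hn : below [OPiece.neg 0, OPiece.death 0] [b, !b] = some [] := by cases b <;> decide
  have h := hV.skein _ _ _ (Triple.antiparallel x [OPiece.death 0] 0 [b, !b] b hx rfl rfl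
    ⟨by simp, by
      rw [List.append_assoc, below_append_some hx]
      exact hp⟩)
  have e1 := V_step hV (x := x) (l := [OPiece.pos 0, OPiece.death 0]) (r := [OPiece.death 0])
    (y := []) (Or.inr (FirstMove.deathPos 0)) hx hp hd rfl
  have e2 := V_step hV (x := x) (l := [OPiece.neg 0, OPiece.death 0]) (r := [OPiece.death 0])
    (y := []) (Or.inr (FirstMove.deathNeg 0)) hx hn hd rfl
  simp only [List.append_assoc, List.cons_append, List.nil_append, List.append_nil] at h e1 e2
  rw [e1, e2] at h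
  unfold dl
  apply mul_left_cancel₀ z_ne
  rw [← h, th2, thm2]
  ring

theorem circles {V : OWord → R} (hV : IsJones V) (x : OWord) (b : Bool)
    (hx : below x [] = some [b, !b]) (j : ℕ) : ∃ (x' : OWord) (b' : Bool),
    below x' [] = some [b', !b'] ∧
      V (x' ++ [OPiece.death 0]) = dl ^ j * V (x ++ [OPiece.death 0]) := by
  induction j with
  | zero => exact ⟨x, b, hx, by rw [pow_zero, one_mul]⟩
  | succ j ih =>
    obtain ⟨x', b', h1, h2⟩ := ih
    refine ⟨x' ++ [OPiece.death 0, OPiece.birth 0 (!b')], !b', ?_, ?_⟩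
    · rw [below_append_some h1]
      cases b' <;> decide
    · have := add_circle hV x' b' h1
      rw [h2] at this
      rw [List.append_assoc, pow_succ, mul_comm (dl ^ j), mul_assoc, ← this]
      rfl

/-! ### spans -/

theorem coeff_dl (p : R) (k : ℤ) : (dl * p).coeff k = -(p.coeff (k - 1) + p.coeff (k + 1)) := by
  have : dl * p = -(T 1 * p + T (-1) * p) := by unfold dl; ring
  rw [this]
  simp only [AddMonoidAlgebra.coeff_neg, AddMonoidAlgebra.coeff_add, Finsupp.neg_apply,
    Finsupp.add_apply, coeff_T_mul]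
  rw [sub_neg_eq_add]

/-- least exponent `a` and largest exponent `b` -/
def Bds (p : R) (a b : ℤ) : Prop :=
  p.coeff a ≠ 0 ∧ p.coeff b ≠ 0 ∧ ∀ k, p.coeff k ≠ 0 → a ≤ k ∧ k ≤ b

theorem bds_dl {p : R} {a b : ℤ} (h : Bds p a b) : Bds (dl * p) (a - 1) (b + 1) := by
  obtain ⟨h1, h2, h3⟩ := h
  have z1 : ∀ k, k < a → p.coeff k = 0 := fun k hk => by
    by_contra hc; exact absurd (h3 k hc).1 (by omega)
  have z2 : ∀ k, b < k → p.coeff k = 0 := fun k hk => by
    by_contra hc; exact absurd (h3 k hc).2 (by omega)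
  have hab : a ≤ b := (h3 a h1).2
  refine ⟨?_, ?_, ?_⟩
  · rw [coeff_dl, z1 (a - 1 - 1) (by omega), sub_add_cancel, zero_add]
    exact neg_ne_zero.mpr h1
  · rw [coeff_dl, z2 (b + 1 + 1) (by omega), add_sub_cancel_right, add_zero]
    exact neg_ne_zero.mpr h2
  · intro k hk
    rw [coeff_dl] at hk
    by_contra hc
    apply hk
    by_cases hk1 : k < a - 1
    · rw [z1 _ (by omega), z1 _ (by omega)]; simp
    · rw [z2 _ (by omega), z2 _ (by omega)]; simp

theorem bds_dl_pow {p : R} {a b : ℤ} (h : Bds p a b) (j : ℕ) :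
    Bds (dl ^ j * p) (a - j) (b + j) := by
  induction j with
  | zero => simpa using h
  | succ j ih =>
    have := bds_dl ih
    rw [pow_succ, mul_comm (dl ^ j), mul_assoc]
    push_cast
    rw [← sub_sub, ← add_assoc]
    exact this

theorem bds_span {p : R} {a b : ℤ} (h : Bds p a b) (n : ℕ) (hn : b - a = 2 * n) : HasSpan p n := by
  obtain ⟨h1, h2, h3⟩ := h
  exact ⟨a, b, ⟨h1, fun k hk => (h3 k hk).1⟩, ⟨h2, fun k hk => (h3 k hk).2⟩, hn⟩

/-- the polynomial `-t^{3(2k+1)/2} (t + t⁻¹)` -/
noncomputable def pk (k : ℕ) : R := -(T (6 * k + 3) * (T 2 + T (-2)))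

theorem coeff_pk (k : ℕ) (i : ℤ) : (pk k).coeff i =
    -((if 6 * (k : ℤ) + 5 = i then 1 else 0) + (if 6 * (k : ℤ) + 1 = i then 1 else 0)) := by
  have : pk k = -(T (6 * k + 5) + T (6 * k + 1)) := by
    unfold pk
    have e1 : 6 * (k : ℤ) + 3 + 2 = 6 * k + 5 := by ring
    have e2 : 6 * (k : ℤ) + 3 + -2 = 6 * k + 1 := by ring
    rw [mul_add, ← T_add, ← T_add, e1, e2]
  rw [this]
  simp only [AddMonoidAlgebra.coeff_neg, AddMonoidAlgebra.coeff_add, Finsupp.neg_apply,
    Finsupp.add_apply, T_apply]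

theorem bds_pk (k : ℕ) : Bds (pk k) (6 * k + 1) (6 * k + 5) := by
  refine ⟨?_, ?_, ?_⟩
  · rw [coeff_pk, if_neg (by omega), if_pos rfl]; norm_num
  · rw [coeff_pk, if_pos rfl, if_neg (by omega)]; norm_num
  · intro i hi
    rw [coeff_pk] at hi
    split_ifs at hi with h1 h2 h2
    · omega
    · omega
    · omega
    · exact absurd (by norm_num) hi

theorem bds_unique {p : R} {a b a' b' : ℤ} (h : Bds p a b) (h' : Bds p a' b') : a = a' := by
  have := (h.2.2 a' h'.1).1
  have := (h'.2.2 a h.1).1
  omega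

theorem infinite_span {V : OWord → R} (hV : IsJones V) (n : ℕ) (hn : 2 ≤ n) :
    (jonesOfSpan V n).Infinite := by
  obtain ⟨j, rfl⟩ : ∃ j, n = j + 2 := ⟨n - 2, by omega⟩
  have hinj : Function.Injective fun k : ℕ => dl ^ j * pk k := by
    intro k k' h
    have h1 := bds_dl_pow (bds_pk k) j
    have h2 := bds_dl_pow (bds_pk k') j
    simp only at h
    rw [h] at h1
    have := bds_unique h1 h2
    omega
  refine Set.infinite_of_injective_forall_mem hinj ?_
  intro k
  refine ⟨bds_span (bds_dl_pow (bds_pk k) j) _ (by push_cast; ring), ?_⟩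
  have hw := br_pw (dw (2 * k + 1))
  obtain ⟨x', b', h1, h2⟩ := circles hV
    ([OPiece.birth 0 true, OPiece.birth 1 true, OPiece.birth 2 true] ++ pw (dw (2 * k + 1)) ++
      [OPiece.death 2, OPiece.death 1]) true (by
        rw [below_append_some (below_start hw)]
        decide) j
  refine ⟨x' ++ [OPiece.death 0], ⟨by simp, ?_⟩, ?_⟩
  · rw [below_append_some h1]
    cases b' <;> decide
  · rw [h2]
    have e : [OPiece.birth 0 true, OPiece.birth 1 true, OPiece.birth 2 true] ++
        pw (dw (2 * k + 1)) ++ [OPiece.death 2, OPiece.death 1] ++ [OPiece.death 0] =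
        cl3 (pw (dw (2 * k + 1))) := by
      simp [cl3]
    rw [e, jones_formula hV, jf_odd]
    rfl

end Pool.Agent.H837R2.Jones
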