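import Pool.Agent.H837R2.Jones.Braid

set_option autoImplicit false
set_option linter.unusedSimpArgs false

namespace Pool.Agent.H837R2.Jones

open LaurentPolynomial Matrix

/-! ### Jones's formula for positive closed 3-braids -/

/-- positive 3-braid words -/
def pw (w : List Bool) : OWord := w.map fun b => if b then OPiece.pos 1 else OPiece.pos 0

theorem pw_append (u v : List Bool) : pw (u ++ v) = pw u ++ pw v := by simp [pw]

theorem br_pw (w : List Bool) : Br (pw w) := by
  intro p hp
  simp only [pw, List.mem_map] at hp
  obtain ⟨b, _, rfl⟩ := hp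
  cases b <;> simp

/-- the reduced Burau representation -/
noncomputable def bur (b : Bool) : Matrix (Fin 2) (Fin 2) R :=
  if b then !![1, 0; tHalf 2, -tHalf 2] else !![-tHalf 2, 1; 0, 1]

/-- the matrix of a word -/
noncomputable def mat (w : List Bool) : Matrix (Fin 2) (Fin 2) R := (w.map bur).prod

theorem mat_append (u v : List Bool) : mat (u ++ v) = mat u * mat v := by simp [mat]

/-- the right-hand side of Jones's formula -/
noncomputable def jf (w : List Bool) : R :=
  (-tHalf 1) ^ w.length * (tHalf 2 + tHalf (-2) + (mat w).trace)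

theorem bur_quad (b : Bool) : bur b * bur b = (1 - tHalf 2) • bur b + tHalf 2 • 1 := by
  unfold bur
  generalize (tHalf 2 : R) = d
  cases b
  · refine Matrix.ext fun i j => ?_
    fin_cases i <;> fin_cases j <;> simp [Matrix.mul_apply, Fin.sum_univ_two] <;> ring
  · refine Matrix.ext fun i j => ?_
    fin_cases i <;> fin_cases j <;> simp [Matrix.mul_apply, Fin.sum_univ_two] <;> ring

theorem bur_third : bur true * bur false * bur true = bur false * bur true * bur false := by
  unfold bur
  generalize (tHalf 2 : R) = d
  refine Matrix.ext fun i j => ?_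
  fin_cases i <;> fin_cases j <;> simp [Matrix.mul_apply, Fin.sum_univ_two]

theorem jf_quad (u v : List Bool) (b : Bool) :
    jf (u ++ [b, b] ++ v) = tHalf 2 * (tHalf 1 - tHalf (-1)) * jf (u ++ [b] ++ v) +
      tHalf 4 * jf (u ++ v) := by
  have h1 : mat [b, b] = (1 - tHalf 2) • mat [b] + tHalf 2 • 1 := by
    have : mat [b, b] = bur b * bur b := by simp [mat]
    rw [this, bur_quad]
    simp [mat]
  have h2 : (mat (u ++ [b, b] ++ v)).trace = (1 - tHalf 2) * (mat (u ++ [b] ++ v)).trace +
      tHalf 2 * (mat (u ++ v)).trace := by
    rw [mat_append, mat_append, h1, mat_append, mat_append, mat_append]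
    rw [Matrix.mul_add, Matrix.add_mul, Matrix.trace_add, Matrix.mul_smul, Matrix.smul_mul,
      Matrix.trace_smul, Matrix.mul_smul, Matrix.smul_mul, Matrix.trace_smul, Matrix.mul_one]
    simp [smul_eq_mul]
  unfold jf
  rw [h2]
  have l1 : (u ++ [b, b] ++ v).length = (u ++ v).length + 2 := by simp; omega
  have l2 : (u ++ [b] ++ v).length = (u ++ v).length + 1 := by simp; omega
  rw [l1, l2, th4]
  generalize (u ++ v).length = n
  generalize (mat (u ++ [b] ++ v)).trace = X
  generalize (mat (u ++ v)).trace = Y
  have e2 := th2
  have e3 : (tHalf 1 * tHalf (-1) : R) = 1 := by rw [← T_add]; rfl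
  have e4 := thm2
  generalize (tHalf (-2) : R) = c at *
  generalize (tHalf 2 : R) = d at *
  generalize (tHalf 1 : R) = a at *
  generalize (tHalf (-1) : R) = b' at *
  subst e2
  subst e4
  have p1 : (-a) ^ (n + 1) = (-a) ^ n * (-a) := pow_succ _ _
  have p2 : (-a) ^ (n + 2) = (-a) ^ n * (a * a) := by rw [pow_add]; ring
  rw [p1, p2]
  generalize (-a) ^ n = g
  linear_combination (-(g * a * a * (a * a + b' * b' + X))) * e3

theorem jf_third (u v : List Bool) :
    jf (u ++ [true, false, true] ++ v) = jf (u ++ [false, true, false] ++ v) := by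
  have h1 : mat [true, false, true] = mat [false, true, false] := by
    have e1 : mat [true, false, true] = bur true * bur false * bur true := by
      simp [mat, mul_assoc]
    have e2 : mat [false, true, false] = bur false * bur true * bur false := by
      simp [mat, mul_assoc]
    rw [e1, e2, bur_third]
  unfold jf
  rw [mat_append, mat_append, h1, mat_append, mat_append]
  simp

/-- the difference of both sides of the formula -/
noncomputable def gg (V : OWord → R) (w : List Bool) : R := V (cl3 (pw w)) - jf w

section
variable {V : OWord → R} (hV : IsJones V)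
include hV

theorem gg_quad (u v : List Bool) (b : Bool) :
    gg V (u ++ [b, b] ++ v) = tHalf 2 * (tHalf 1 - tHalf (-1)) * gg V (u ++ [b] ++ v) +
      tHalf 4 * gg V (u ++ v) := by
  unfold gg
  rw [jf_quad]
  have h : V (cl3 (pw (u ++ [b, b] ++ v))) =
      tHalf 2 * (tHalf 1 - tHalf (-1)) * V (cl3 (pw (u ++ [b] ++ v))) +
        tHalf 4 * V (cl3 (pw (u ++ v))) := by
    simp only [pw_append]
    cases b
    · exact V3_quad hV (br_pw u) (br_pw v) 0 (Or.inl rfl)
    · exact V3_quad hV (br_pw u) (br_pw v) 1 (Or.inr rfl)
  rw [h]
  ring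

theorem gg_third (u v : List Bool) :
    gg V (u ++ [true, false, true] ++ v) = gg V (u ++ [false, true, false] ++ v) := by
  unfold gg
  rw [jf_third]
  have h : V (cl3 (pw (u ++ [true, false, true] ++ v))) =
      V (cl3 (pw (u ++ [false, true, false] ++ v))) := by
    simp only [pw_append]
    exact V3_third hV (br_pw u) (br_pw v)
  rw [h]

theorem gg_base : gg V [] = 0 ∧ gg V [false] = 0 ∧ gg V [true] = 0 ∧ gg V [false, true] = 0 ∧
    gg V [true, false] = 0 ∧ gg V [false, true, false] = 0 := by
  have e1 := th2
  have e2 := thm2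
  have e3 : (tHalf 1 * tHalf (-1) : R) = 1 := by rw [← T_add]; rfl
  have e4 := th4
  have t0 : (mat []).trace = 2 := by
    simp [mat, Matrix.trace, Fin.sum_univ_two]
  have t1 : (mat [false]).trace = 1 - tHalf 2 := by
    simp [mat, bur, Matrix.trace, Fin.sum_univ_two]
    ring
  have t2 : (mat [true]).trace = 1 - tHalf 2 := by
    simp [mat, bur, Matrix.trace, Fin.sum_univ_two]
    ring
  have t3 : (mat [false, true]).trace = -tHalf 2 := by
    simp [mat, bur, Matrix.trace, Fin.sum_univ_two, Matrix.mul_apply]
  have t4 : (mat [true, false]).trace = -tHalf 2 := by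
    simp [mat, bur, Matrix.trace, Fin.sum_univ_two, Matrix.mul_apply]
  have t5 : (mat [false, true, false]).trace = 0 := by
    simp [mat, bur, Matrix.trace, Fin.sum_univ_two, Matrix.mul_apply]
  have v0 : V (cl3 (pw [])) = (tHalf 1 + tHalf (-1)) ^ 2 := V_cl3_nil hV
  have v1 : V (cl3 (pw [false])) = -(tHalf 1 + tHalf (-1)) := V_cl3_0 hV
  have v2 : V (cl3 (pw [true])) = -(tHalf 1 + tHalf (-1)) := (V_cl3_1 hV).trans (V_cl2_nil hV)
  have v3 : V (cl3 (pw [false, true])) = 1 := (V_cl3_01 hV).trans (V_cl2_pos hV)
  have v4 : V (cl3 (pw [true, false])) = 1 := (V_cl3_10 hV).trans (V_cl2_pos hV)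
  have v5 : V (cl3 (pw [false, true, false])) =
      tHalf 2 * (tHalf 1 - tHalf (-1)) - tHalf 4 * (tHalf 1 + tHalf (-1)) :=
    (V_cl3_010 hV).trans (V_cl2_two hV)
  unfold gg jf
  rw [v0, v1, v2, v3, v4, v5, t0, t1, t2, t3, t4, t5, e4]
  simp only [List.length_nil, List.length_cons]
  generalize (tHalf (-2) : R) = c at *
  generalize (tHalf 2 : R) = d at *
  generalize (tHalf 1 : R) = a at *
  generalize (tHalf (-1) : R) = b at *
  subst e1
  subst e2
  refine ⟨?_, ?_, ?_, ?_, ?_, ?_⟩
  · linear_combination 2 * e3
  · linear_combination b * e3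
  · linear_combination b * e3
  · linear_combination (-(a * b) - 1) * e3
  · linear_combination (-(a * b) - 1) * e3
  · linear_combination (a * a * b - a * a * a) * e3

theorem gg_zero_basis (w : List Bool) : gg V w = 0 ∧ gg V (w ++ [false]) = 0 ∧
    gg V (w ++ [true]) = 0 ∧ gg V (w ++ [false, true]) = 0 ∧ gg V (w ++ [true, false]) = 0 ∧
    gg V (w ++ [false, true, false]) = 0 := by
  induction w using List.reverseRecOn with
  | nil => exact gg_base hV
  | append_singleton w s ih =>
    obtain ⟨i0, i1, i2, i3, i4, i5⟩ := ih
    have ha : ∀ (b : List Bool), (w ++ [s]) ++ b = w ++ (s :: b) := fun b => by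
      rw [List.append_assoc, List.singleton_append]
    rw [ha, ha, ha, ha, ha]
    have q : ∀ (u v : List Bool) (b : Bool), gg V (u ++ [b] ++ v) = 0 → gg V (u ++ v) = 0 →
        gg V (u ++ [b, b] ++ v) = 0 := by
      intro u v b h1 h2
      rw [gg_quad hV, h1, h2, mul_zero, mul_zero, add_zero]
    have r : ∀ (u v : List Bool), gg V (u ++ [false, true, false] ++ v) = 0 →
        gg V (u ++ [true, false, true] ++ v) = 0 := by
      intro u v h1
      rw [gg_third hV, h1]
    have q1 : gg V (w ++ [false, false]) = 0 := by
      have := q w [] false (by rw [List.append_nil]; exact i1) (by rw [List.append_nil]; exact i0)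
      rwa [List.append_nil] at this
    have q2 : gg V (w ++ [false, false, true]) = 0 := by
      have := q w [true] false (by rw [List.append_assoc]; exact i3) i2
      rwa [List.append_assoc] at this
    have q3 : gg V (w ++ [false, false, true, false]) = 0 := by
      have := q w [true, false] false (by rw [List.append_assoc]; exact i5) i4
      rwa [List.append_assoc] at this
    have q4 : gg V (w ++ [true, true]) = 0 := by
      have := q w [] true (by rw [List.append_nil]; exact i2) (by rw [List.append_nil]; exact i0)
      rwa [List.append_nil] at this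
    have q5 : gg V (w ++ [true, true, false]) = 0 := by
      have := q w [false] true (by rw [List.append_assoc]; exact i4) i1
      rwa [List.append_assoc] at this
    have q6 : gg V (w ++ [false, true, false, false]) = 0 := by
      have := q (w ++ [false, true]) [] false
        (by rw [List.append_nil, List.append_assoc]; exact i5)
        (by rw [List.append_nil]; exact i3)
      rwa [List.append_nil, List.append_assoc] at this
    have r1 : gg V (w ++ [true, false, true]) = 0 := by
      have := r w [] (by rw [List.append_nil]; exact i5)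
      rwa [List.append_nil] at this
    have r2 : gg V (w ++ [true, false, true, false]) = 0 := by
      have := r w [false] (by rw [List.append_assoc]; exact q6)
      rwa [List.append_assoc] at this
    cases s
    · exact ⟨i1, q1, i3, q2, i5, q3⟩
    · exact ⟨i2, i4, q4, r1, q5, r2⟩

/-- Jones's formula for positive closed 3-braids -/
theorem jones_formula (w : List Bool) : V (cl3 (pw w)) = jf w := by
  exact sub_eq_zero.mp (gg_zero_basis hV w).1

end

end Pool.Agent.H837R2.Jones
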