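import Pool.Agent.H837R2.Jones.Writhe

set_option autoImplicit false
set_option linter.unusedSimpArgs false

namespace Pool.Agent.H837R2.Jones

open LaurentPolynomial
open Pool.Agent.Helper62.StateSum Pool.Agent.Helper62.BracketRing

/-! ### the first Reidemeister move and the writhe -/

theorem wr_first {l r : OWord} {d e : List Bool} (h : FirstMove (forget l) (forget r))
    (hl : below l d = some e) (hr : below r d = some e) :
    (∃ i, forget l = [.birth i, .pos i] ∧ forget r = [.birth i] ∧ i ≤ d.length ∧
      wr l d = wr r d - 1) ∨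
    (∃ i, forget l = [.birth i, .neg i] ∧ forget r = [.birth i] ∧ i ≤ d.length ∧
      wr l d = wr r d + 1) ∨
    (∃ i, forget l = [.pos i, .death i] ∧ forget r = [.death i] ∧ i + 2 ≤ d.length ∧
      wr l d = wr r d - 1) ∨
    (∃ i, forget l = [.neg i, .death i] ∧ forget r = [.death i] ∧ i + 2 ≤ d.length ∧
      wr l d = wr r d + 1) := by
  generalize hL : forget l = L at h
  generalize hR : forget r = R' at h
  cases h with
  | birthPos i =>
    left
    obtain ⟨p1, q1, rfl, hp1, hq1⟩ := forget_two hL
    obtain ⟨p2, rfl, hp2⟩ := forget_one hR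
    obtain ⟨b, rfl⟩ := eq_birth hp1
    obtain ⟨b', rfl⟩ := eq_birth hp2
    obtain rfl := eq_pos hq1
    obtain ⟨d1, h1, -⟩ := below_cons hl
    obtain ⟨P, Q, rfl, rfl, rfl⟩ := birth_below h1
    refine ⟨P.length, rfl, rfl, by simp, ?_⟩
    rw [wr_two h1, wr_one, sign_pos]
    cases b <;> rfl
  | birthNeg i =>
    right; left
    obtain ⟨p1, q1, rfl, hp1, hq1⟩ := forget_two hL
    obtain ⟨p2, rfl, hp2⟩ := forget_one hR
    obtain ⟨b, rfl⟩ := eq_birth hp1
    obtain ⟨b', rfl⟩ := eq_birth hp2
    obtain rfl := eq_neg hq1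
    obtain ⟨d1, h1, -⟩ := below_cons hl
    obtain ⟨P, Q, rfl, rfl, rfl⟩ := birth_below h1
    refine ⟨P.length, rfl, rfl, by simp, ?_⟩
    rw [wr_two h1, wr_one, sign_neg]
    cases b <;> rfl
  | deathPos i =>
    right; right; left
    obtain ⟨p1, q1, rfl, hp1, hq1⟩ := forget_two hL
    obtain ⟨p2, rfl, hp2⟩ := forget_one hR
    obtain rfl := eq_pos hp1
    obtain rfl := eq_death hq1
    obtain rfl := eq_death hp2
    obtain ⟨d1, h1, -⟩ := below_cons hl
    obtain ⟨d2, h2, -⟩ := below_cons hr
    obtain ⟨P, b, Q, rfl, rfl, rfl⟩ := death_below h2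
    refine ⟨P.length, rfl, rfl, by simp, ?_⟩
    rw [wr_two h1, wr_one, sign_pos]
    cases b <;> rfl
  | deathNeg i =>
    right; right; right
    obtain ⟨p1, q1, rfl, hp1, hq1⟩ := forget_two hL
    obtain ⟨p2, rfl, hp2⟩ := forget_one hR
    obtain rfl := eq_neg hp1
    obtain rfl := eq_death hq1
    obtain rfl := eq_death hp2
    obtain ⟨d1, h1, -⟩ := below_cons hl
    obtain ⟨d2, h2, -⟩ := below_cons hr
    obtain ⟨P, b, Q, rfl, rfl, rfl⟩ := death_below h2
    refine ⟨P.length, rfl, rfl, by simp, ?_⟩
    rw [wr_two h1, wr_one, sign_neg]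
    cases b <;> rfl

/-! ### the ring `ℤ[A^{±1}]` -/

/-- the ring `ℤ[A^{±1}]` -/
abbrev RA : Type := LaurentPolynomial ℤ

/-- `A` -/
noncomputable def aa : RA := T 1

/-- `A⁻¹` -/
noncomputable def ai : RA := T (-1)

theorem aa_ai : aa * ai = 1 := by
  rw [aa, ai, ← T_add]
  simp

/-- `(-1)^n` in `RA` -/
noncomputable def sg (n : ℤ) : RA := ((Int.negOnePow n : ℤˣ) : ℤ)

theorem sg_add (m n : ℤ) : sg (m + n) = sg m * sg n := by
  rw [sg, sg, sg, Int.negOnePow_add]
  push_cast
  rfl

theorem sg_one : sg 1 = -1 := by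
  rw [sg, Int.negOnePow_one]
  simp

theorem sg_neg_one : sg (-1) = -1 := by
  rw [sg, Int.negOnePow_neg, Int.negOnePow_one]
  simp

/-- the factor `(-A³)^{-w}` -/
noncomputable def fr (w : ℤ) : RA := sg w * T (-3 * w)

theorem fr_add (m n : ℤ) : fr (m + n) = fr m * fr n := by
  rw [fr, fr, fr, sg_add, mul_add, T_add]
  ring

theorem fr_one : fr 1 = -ai ^ 3 := by
  rw [fr, sg_one, ai, T_pow]
  simp

theorem fr_neg_one : fr (-1) = -aa ^ 3 := by
  rw [fr, sg_neg_one, aa, T_pow]
  simp

/-- the invariant times `-A² - A⁻²` -/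
noncomputable def big (D : OWord) : RA := fr (wr D []) * brk aa ai (forget D)

theorem forget_append (u v : OWord) : forget (u ++ v) = forget u ++ forget v := by
  simp [forget]

theorem big_step {D E : OWord} (h : Step D E) : big D = big E := by
  obtain ⟨x, l, r, y, d, e, h, hx, hl, hr, hy⟩ := h
  have wx := width_tw hx
  have wl := width_tw hl
  have wr' := width_tw hr
  have w1 : ∀ z : OWord, below z d = some e →
      wr (x ++ z ++ y) [] = wr x [] + wr z d + wr y e := by
    intro z hz
    rw [List.append_assoc, wr_append hx, wr_append hz, add_assoc]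
  unfold big
  rw [w1 l hl, w1 r hr]
  simp only [forget_append]
  rcases h with h | h
  · rw [wr_local h hl hr, brk_local aa_ai h wx wl wr']
  · have key : ∀ (c : RA) (n : ℤ), fr n * c = 1 → wr l d = wr r d + n →
        brk aa ai (forget x ++ forget l ++ forget y) =
          c * brk aa ai (forget x ++ forget r ++ forget y) →
        fr (wr x [] + wr l d + wr y e) * brk aa ai (forget x ++ forget l ++ forget y) =
        fr (wr x [] + wr r d + wr y e) * brk aa ai (forget x ++ forget r ++ forget y) := by
      intro c n h1 h2 h3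
      rw [h2, h3, show wr x [] + (wr r d + n) + wr y e = (wr x [] + wr r d + wr y e) + n by ring,
        fr_add]
      linear_combination (fr (wr x [] + wr r d + wr y e) *
        brk aa ai (forget x ++ forget r ++ forget y)) * h1
    have k1 : fr (-1) * (-ai ^ 3) = 1 := by
      rw [fr_neg_one]
      linear_combination ((aa * ai) ^ 2 + (aa * ai) + 1) * aa_ai
    have k2 : fr 1 * (-aa ^ 3) = 1 := by
      rw [fr_one]
      linear_combination ((aa * ai) ^ 2 + (aa * ai) + 1) * aa_ai
    rcases wr_first h hl hr with ⟨i, h1, h2, h3, h4⟩ | ⟨i, h1, h2, h3, h4⟩ | ⟨i, h1, h2, h3, h4⟩ |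
      ⟨i, h1, h2, h3, h4⟩
    · apply key _ (-1) k1 (by rw [h4]; ring)
      rw [h1, h2]
      exact brk_birthPos aa_ai wx h3
    · apply key _ 1 k2 h4
      rw [h1, h2]
      exact brk_birthNeg aa_ai wx h3
    · apply key _ (-1) k1 (by rw [h4]; ring)
      rw [h1, h2]
      exact brk_deathPos aa_ai wx h3
    · apply key _ 1 k2 h4
      rw [h1, h2]
      exact brk_deathNeg aa_ai wx h3

theorem big_isotopic {D E : OWord} (h : Isotopic D E) : big D = big E := by
  induction h with
  | rel _ _ h => exact big_step h
  | refl _ => rfl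
  | symm _ _ _ h => exact h.symm
  | trans _ _ _ _ _ h1 h2 => exact h1.trans h2

theorem split_get {d : List Bool} {i : ℕ} {b c : Bool} (h1 : d[i]? = some b)
    (h2 : d[i + 1]? = some c) : ∃ P Q, d = P ++ b :: c :: Q ∧ P.length = i := by
  have hi : i + 1 < d.length := by
    by_contra hc
    rw [List.getElem?_eq_none (by omega)] at h2
    cases h2
  refine ⟨d.take i, d.drop (i + 2), ?_, by simp; omega⟩
  conv_lhs => rw [← List.take_append_drop i d]
  congr 1
  rw [List.drop_eq_getElem_cons (by omega), List.drop_eq_getElem_cons (by omega)]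
  rw [List.getElem?_eq_getElem (by omega)] at h1 h2
  injection h1 with h1
  injection h2 with h2
  rw [h1, h2]

theorem below_death (P Q : List Bool) (b : Bool) :
    (OPiece.death P.length).below (P ++ b :: (!b) :: Q) = some (P ++ Q) := by
  simp [OPiece.below]

theorem big_skein {P N O : OWord} (h : Triple P N O) :
    aa ^ 4 * big P - ai ^ 4 * big N = (ai ^ 2 - aa ^ 2) * big O := by
  have hai := aa_ai
  cases h with
  | parallel x y i d b hx h1 h2 hD =>
    obtain ⟨P, Q, rfl, rfl⟩ := split_get h1 h2
    have wx := width_tw hx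
    have e1 : ∀ p : OPiece, p.below (P ++ b :: b :: Q) = some (P ++ b :: b :: Q) →
        wr (x ++ [p] ++ y) [] = wr (x ++ y) [] + sign p (P ++ b :: b :: Q) := by
      intro p hp
      rw [List.append_assoc, wr_append hx, wr_append hx, List.singleton_append, wr_cons hp]
      ring
    unfold big
    rw [e1 _ (below_pos _ _ _ _), e1 _ (below_neg _ _ _ _), sign_pos, sign_neg, if_pos rfl,
      if_pos rfl]
    simp only [forget_append]
    have e2 := brk_pos (y := forget y) aa_ai wx (i := P.length) (by simp)
    have e3 := brk_neg (y := forget y) aa_ai wx (i := P.length) (by simp)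
    have e4 : forget [OPiece.pos P.length] = [.pos P.length] := rfl
    have e5 : forget [OPiece.neg P.length] = [.neg P.length] := rfl
    rw [e4, e5, e2, e3, fr_add, fr_add, fr_one, fr_neg_one]
    generalize fr (wr (x ++ y) []) = u
    generalize brk aa ai (forget x ++ forget y) = X
    generalize brk aa ai (forget x ++ [Piece.death P.length, Piece.birth P.length] ++ forget y) = Y
    generalize aa = a at *
    generalize ai = b' at *
    grind
  | antiparallel x y i d b hx h1 h2 hD =>
    obtain ⟨P, Q, rfl, rfl⟩ := split_get h1 h2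
    have wx := width_tw hx
    have e0 : ∀ z : OWord, ∀ w, below z (P ++ b :: (!b) :: Q) = some (P ++ (!b) :: b :: Q) →
        wr z (P ++ b :: (!b) :: Q) = w →
        wr (x ++ z ++ y) [] = wr x [] + wr y (P ++ (!b) :: b :: Q) + w := by
      intro z w hz hw
      rw [List.append_assoc, wr_append hx, wr_append hz, hw]
      ring
    have f1 : (OPiece.birth P.length (!b)).below (P ++ Q) = some (P ++ (!b) :: b :: Q) := by
      rw [below_birth, Bool.not_not]
    have s1 : wr [OPiece.pos P.length] (P ++ b :: (!b) :: Q) = -1 := by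
      rw [wr_one, sign_pos]
      cases b <;> rfl
    have s2 : wr [OPiece.neg P.length] (P ++ b :: (!b) :: Q) = 1 := by
      rw [wr_one, sign_neg]
      cases b <;> rfl
    have s3 : wr [OPiece.death P.length, OPiece.birth P.length (!b)] (P ++ b :: (!b) :: Q)
        = 0 := by
      rw [wr_two (below_death _ _ _)]
      rfl
    unfold big
    rw [e0 _ _ (below_cons_some (below_neg _ _ _ _)) s2,
      e0 _ _ (below_cons_some (below_pos _ _ _ _)) s1,
      e0 _ _ ((below_cons_some (below_death _ _ _)).trans (below_cons_some f1)) s3]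
    simp only [forget_append]
    have e2 := brk_pos (y := forget y) aa_ai wx (i := P.length) (by simp)
    have e3 := brk_neg (y := forget y) aa_ai wx (i := P.length) (by simp)
    have e4 : forget [OPiece.pos P.length] = [.pos P.length] := rfl
    have e5 : forget [OPiece.neg P.length] = [.neg P.length] := rfl
    have e6 : forget [OPiece.death P.length, OPiece.birth P.length (!b)] =
      [.death P.length, .birth P.length] := rfl
    rw [e4, e5, e6, e2, e3]
    generalize wr x [] + wr y (P ++ (!b) :: b :: Q) = W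
    rw [fr_add W 1, fr_add W (-1), fr_one, fr_neg_one, add_zero]
    generalize fr W = u
    generalize brk aa ai (forget x ++ forget y) = X
    generalize brk aa ai (forget x ++ [Piece.death P.length, Piece.birth P.length] ++ forget y) = Y
    generalize aa = a at *
    generalize ai = b' at *
    grind

end Pool.Agent.H837R2.Jones
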