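import Pool.Agent.H837R2.Jones.Brk

set_option autoImplicit false
set_option linter.unusedSimpArgs false

namespace Pool.Agent.H837R2.Jones

/-! ### `below` -/

theorem below_append (u v : OWord) (d : List Bool) :
    below (u ++ v) d = (below u d).bind (below v) := by
  induction u generalizing d with
  | nil => rfl
  | cons p u ih =>
    show ((p.below d).bind (below (u ++ v))) = ((p.below d).bind (below u)).bind (below v)
    cases p.below d with
    | none => rfl
    | some e => exact ih e

theorem below_append_some {u v : OWord} {d e : List Bool} (h : below u d = some e) :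
    below (u ++ v) d = below v e := by
  rw [below_append, h]
  rfl

theorem below_cons {p : OPiece} {w : OWord} {d f : List Bool} (h : below (p :: w) d = some f) :
    ∃ e, p.below d = some e ∧ below w e = some f := by
  change (p.below d).bind (below w) = some f at h
  cases hp : p.below d with
  | none => rw [hp] at h; cases h
  | some e => rw [hp] at h; exact ⟨e, rfl, h⟩

theorem below_cons_some {p : OPiece} {w : OWord} {d e : List Bool} (h : p.below d = some e) :
    below (p :: w) d = below w e := by
  change (p.below d).bind (below w) = _
  rw [h]
  rfl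

theorem split_two {d : List Bool} {i : ℕ} {x y : Bool} {r : List Bool}
    (h : d.drop i = x :: y :: r) : ∃ P, d = P ++ x :: y :: r ∧ P.length = i := by
  refine ⟨d.take i, ?_, ?_⟩
  · rw [← h, List.take_append_drop]
  · have : (d.drop i).length = r.length + 2 := by rw [h]; simp
    rw [List.length_drop] at this
    rw [List.length_take]
    omega

theorem birth_below {i : ℕ} {b : Bool} {d e : List Bool} (h : (OPiece.birth i b).below d = some e) :
    ∃ P Q, d = P ++ Q ∧ P.length = i ∧ e = P ++ b :: (!b) :: Q := by
  simp only [OPiece.below] at h
  split_ifs at h with hi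
  refine ⟨d.take i, d.drop i, (List.take_append_drop i d).symm, by simp [hi], ?_⟩
  injection h with h
  rw [← h]
  simp

theorem death_below {i : ℕ} {d e : List Bool} (h : (OPiece.death i).below d = some e) :
    ∃ P b Q, d = P ++ (!b) :: b :: Q ∧ P.length = i ∧ e = P ++ Q := by
  simp only [OPiece.below] at h
  split at h
  · rename_i x y r hr
    split_ifs at h with hxy
    obtain ⟨P, hP, hl⟩ := split_two hr
    refine ⟨P, y, r, ?_, hl, ?_⟩
    · rw [hP, hxy]
    · injection h with h
      rw [← h, hP, ← hl, List.take_left]
  · cases h

theorem pos_below {i : ℕ} {d e : List Bool} (h : (OPiece.pos i).below d = some e) :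
    ∃ P x y Q, d = P ++ x :: y :: Q ∧ P.length = i ∧ e = P ++ y :: x :: Q := by
  simp only [OPiece.below] at h
  split at h
  · rename_i x y r hr
    obtain ⟨P, hP, hl⟩ := split_two hr
    refine ⟨P, x, y, r, hP, hl, ?_⟩
    injection h with h
    rw [← h, hP, ← hl, List.take_left]
    simp
  · cases h

theorem neg_below {i : ℕ} {d e : List Bool} (h : (OPiece.neg i).below d = some e) :
    ∃ P x y Q, d = P ++ x :: y :: Q ∧ P.length = i ∧ e = P ++ y :: x :: Q := by
  exact pos_below h

theorem width_tw {w : OWord} : ∀ {d e : List Bool}, below w d = some e →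
    Pool.Agent.Helper62.Skein.width d.length (tw (forget w)) = some e.length := by
  induction w with
  | nil =>
    intro d e h
    change some d = some e at h
    injection h with h
    rw [h]
    rfl
  | cons p w ih =>
    intro d f h
    obtain ⟨e, h1, h2⟩ := below_cons h
    have h3 := ih h2
    show Pool.Agent.Helper62.Skein.width d.length (tp p.forget :: tw (forget w)) = _
    cases p with
    | birth i b =>
      obtain ⟨P, Q, rfl, rfl, rfl⟩ := birth_below h1
      rw [← h3]
      simp [tp, OPiece.forget, Pool.Agent.Helper62.Skein.width,
        Pool.Agent.Helper62.Skein.Piece.low, Pool.Agent.Helper62.Skein.Piece.high]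
      rfl
    | death i =>
      obtain ⟨P, b, Q, rfl, rfl, rfl⟩ := death_below h1
      rw [← h3]
      simp [tp, OPiece.forget, Pool.Agent.Helper62.Skein.width,
        Pool.Agent.Helper62.Skein.Piece.low, Pool.Agent.Helper62.Skein.Piece.high]
      rfl
    | pos i =>
      obtain ⟨P, x, y, Q, rfl, rfl, rfl⟩ := pos_below h1
      rw [← h3]
      simp [tp, OPiece.forget, Pool.Agent.Helper62.Skein.width,
        Pool.Agent.Helper62.Skein.Piece.low, Pool.Agent.Helper62.Skein.Piece.high]
      rfl
    | neg i =>
      obtain ⟨P, x, y, Q, rfl, rfl, rfl⟩ := neg_below h1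
      rw [← h3]
      simp [tp, OPiece.forget, Pool.Agent.Helper62.Skein.width,
        Pool.Agent.Helper62.Skein.Piece.low, Pool.Agent.Helper62.Skein.Piece.high]
      rfl

/-! ### The writhe -/

/-- The sign of a crossing (`0` for the other pieces) if `d` lists the directions of the strands
above it. -/
def sign : OPiece → List Bool → ℤ
  | .birth _ _, _ => 0
  | .death _, _ => 0
  | .pos i, d => if d[i]? = d[i + 1]? then 1 else -1
  | .neg i, d => if d[i]? = d[i + 1]? then -1 else 1

/-- sum of the signs of the crossings -/
def wr : OWord → List Bool → ℤ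
  | [], _ => 0
  | p :: w, d => sign p d + wr w ((p.below d).getD [])

theorem wr_cons {p : OPiece} {w : OWord} {d e : List Bool} (h : p.below d = some e) :
    wr (p :: w) d = sign p d + wr w e := by
  rw [wr, h]
  rfl

theorem wr_append {u : OWord} : ∀ {v : OWord} {d e : List Bool}, below u d = some e →
    wr (u ++ v) d = wr u d + wr v e := by
  induction u with
  | nil =>
    intro v d e h
    change some d = some e at h
    injection h with h
    rw [h, List.nil_append, wr, zero_add]
  | cons p u ih =>
    intro v d f h
    obtain ⟨e, h1, h2⟩ := below_cons h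
    rw [List.cons_append, wr_cons h1, wr_cons h1, ih h2, add_assoc]

theorem get0 (P : List Bool) (x y : Bool) (Q : List Bool) :
    (P ++ x :: y :: Q)[P.length]? = some x := by
  simp

theorem get1 (P : List Bool) (x y : Bool) (Q : List Bool) :
    (P ++ x :: y :: Q)[P.length + 1]? = some y := by
  rw [List.getElem?_append_right (by omega)]
  simp

theorem sign_pos (P : List Bool) (x y : Bool) (Q : List Bool) :
    sign (.pos P.length) (P ++ x :: y :: Q) = if x = y then 1 else -1 := by
  simp only [sign, get0, get1, Option.some.injEq]

theorem sign_neg (P : List Bool) (x y : Bool) (Q : List Bool) :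
    sign (.neg P.length) (P ++ x :: y :: Q) = if x = y then -1 else 1 := by
  simp only [sign, get0, get1, Option.some.injEq]

end Pool.Agent.H837R2.Jones
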