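import Pool.Agent.H837R2.Jones.Orient

set_option autoImplicit false
set_option linter.unusedSimpArgs false

namespace Pool.Agent.H837R2.Jones

/-! ### inverting `forget` -/

theorem forget_nil {l : OWord} (h : forget l = []) : l = [] := by
  cases l with
  | nil => rfl
  | cons p l => cases h

theorem forget_cons {l : OWord} {p : Piece} {w : Word} (h : forget l = p :: w) :
    ∃ p' l', l = p' :: l' ∧ p'.forget = p ∧ forget l' = w := by
  cases l with
  | nil => cases h
  | cons q l =>
    change q.forget :: forget l = p :: w at h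
    injection h with h1 h2
    exact ⟨q, l, rfl, h1, h2⟩

theorem forget_one {l : OWord} {p : Piece} (h : forget l = [p]) :
    ∃ p', l = [p'] ∧ p'.forget = p := by
  obtain ⟨p', l', rfl, h1, h2⟩ := forget_cons h
  rw [forget_nil h2]
  exact ⟨p', rfl, h1⟩

theorem forget_two {l : OWord} {p q : Piece} (h : forget l = [p, q]) :
    ∃ p' q', l = [p', q'] ∧ p'.forget = p ∧ q'.forget = q := by
  obtain ⟨p', l', rfl, h1, h2⟩ := forget_cons h
  obtain ⟨q', rfl, h3⟩ := forget_one h2
  exact ⟨p', q', rfl, h1, h3⟩

theorem forget_three {l : OWord} {p q s : Piece} (h : forget l = [p, q, s]) :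
    ∃ p' q' s', l = [p', q', s'] ∧ p'.forget = p ∧ q'.forget = q ∧ s'.forget = s := by
  obtain ⟨p', l', rfl, h1, h2⟩ := forget_cons h
  obtain ⟨q', s', rfl, h3, h4⟩ := forget_two h2
  exact ⟨p', q', s', rfl, h1, h3, h4⟩

theorem eq_birth {p : OPiece} {i : ℕ} (h : p.forget = .birth i) : ∃ b, p = .birth i b := by
  cases p <;> simp [OPiece.forget] at h
  subst h
  exact ⟨_, rfl⟩

theorem eq_death {p : OPiece} {i : ℕ} (h : p.forget = .death i) : p = .death i := by
  cases p <;> simp [OPiece.forget] at h
  subst h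
  rfl

theorem eq_pos {p : OPiece} {i : ℕ} (h : p.forget = .pos i) : p = .pos i := by
  cases p <;> simp [OPiece.forget] at h
  subst h
  rfl

theorem eq_neg {p : OPiece} {i : ℕ} (h : p.forget = .neg i) : p = .neg i := by
  cases p <;> simp [OPiece.forget] at h
  subst h
  rfl

/-! ### a piece does not change the strands to its left and right -/

theorem get_left {p : OPiece} {d e : List Bool} (h : p.below d = some e) {j : ℕ}
    (hj : j < p.forget.index) : e[j]? = d[j]? := by
  cases p with
  | birth i b =>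
    obtain ⟨P, Q, rfl, rfl, rfl⟩ := birth_below h
    rw [List.getElem?_append_left hj, List.getElem?_append_left hj]
  | death i =>
    obtain ⟨P, b, Q, rfl, rfl, rfl⟩ := death_below h
    rw [List.getElem?_append_left hj, List.getElem?_append_left hj]
  | pos i =>
    obtain ⟨P, x, y, Q, rfl, rfl, rfl⟩ := pos_below h
    rw [List.getElem?_append_left hj, List.getElem?_append_left hj]
  | neg i =>
    obtain ⟨P, x, y, Q, rfl, rfl, rfl⟩ := neg_below h
    rw [List.getElem?_append_left hj, List.getElem?_append_left hj]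

theorem get_right {p : OPiece} {d e : List Bool} (h : p.below d = some e) {j : ℕ}
    (hj : p.forget.index + p.forget.ins ≤ j) :
    e[j + p.forget.outs - p.forget.ins]? = d[j]? := by
  cases p with
  | birth i b =>
    obtain ⟨P, Q, rfl, rfl, rfl⟩ := birth_below h
    simp only [OPiece.forget, Piece.index, Piece.ins, Piece.outs] at hj ⊢
    obtain ⟨k, rfl⟩ : ∃ k, j = P.length + k := ⟨j - P.length, by omega⟩
    rw [show P.length + k + 2 - 0 = (P ++ [b, !b]).length + k by simp; omega,
      show P ++ b :: (!b) :: Q = (P ++ [b, !b]) ++ Q by simp,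
      List.getElem?_append_right (by omega), List.getElem?_append_right (by omega)]
    congr 1
    omega
  | death i =>
    obtain ⟨P, b, Q, rfl, rfl, rfl⟩ := death_below h
    simp only [OPiece.forget, Piece.index, Piece.ins, Piece.outs] at hj ⊢
    obtain ⟨k, rfl⟩ : ∃ k, j = P.length + 2 + k := ⟨j - (P.length + 2), by omega⟩
    rw [show P.length + 2 + k + 0 - 2 = P.length + k by omega,
      show P ++ (!b) :: b :: Q = (P ++ [!b, b]) ++ Q by simp,
      show P.length + 2 + k = (P ++ [!b, b]).length + k by simp,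
      List.getElem?_append_right (by omega), List.getElem?_append_right (by omega)]
    congr 1
    omega
  | pos i =>
    obtain ⟨P, x, y, Q, rfl, rfl, rfl⟩ := pos_below h
    simp only [OPiece.forget, Piece.index, Piece.ins, Piece.outs] at hj ⊢
    obtain ⟨k, rfl⟩ : ∃ k, j = P.length + 2 + k := ⟨j - (P.length + 2), by omega⟩
    rw [show P.length + 2 + k + 2 - 2 = P.length + 2 + k by omega,
      show P ++ y :: x :: Q = (P ++ [y, x]) ++ Q by simp,
      show P ++ x :: y :: Q = (P ++ [x, y]) ++ Q by simp,
      List.getElem?_append_right (by simp), List.getElem?_append_right (by simp)]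
    simp
  | neg i =>
    obtain ⟨P, x, y, Q, rfl, rfl, rfl⟩ := neg_below h
    simp only [OPiece.forget, Piece.index, Piece.ins, Piece.outs] at hj ⊢
    obtain ⟨k, rfl⟩ : ∃ k, j = P.length + 2 + k := ⟨j - (P.length + 2), by omega⟩
    rw [show P.length + 2 + k + 2 - 2 = P.length + 2 + k by omega,
      show P ++ y :: x :: Q = (P ++ [y, x]) ++ Q by simp,
      show P ++ x :: y :: Q = (P ++ [x, y]) ++ Q by simp,
      List.getElem?_append_right (by simp), List.getElem?_append_right (by simp)]
    simp

theorem wr_one (p : OPiece) (d : List Bool) : wr [p] d = sign p d := by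
  rw [wr, wr, add_zero]

theorem wr_two {p q : OPiece} {d e : List Bool} (h : p.below d = some e) :
    wr [p, q] d = sign p d + sign q e := by
  rw [wr_cons h, wr_one]

theorem wr_exchange {p q : Piece} {p1 p2 q1 q2 : OPiece} {d e : List Bool}
    (h : p.index + p.ins ≤ q.index) (hp1 : p1.forget = p) (hp2 : p2.forget = p)
    (hq1 : q1.forget = q.moved (q.index + p.outs - p.ins)) (hq2 : q2.forget = q)
    (hl : below [p1, q1] d = some e) (hr : below [q2, p2] d = some e) :
    wr [p1, q1] d = wr [q2, p2] d := by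
  obtain ⟨d1, h1, _⟩ := below_cons hl
  obtain ⟨d2, h2, _⟩ := below_cons hr
  rw [wr_two h1, wr_two h2]
  have e1 : sign p2 d2 = sign p1 d := by
    subst hq2
    cases p with
    | birth i =>
      obtain ⟨b, rfl⟩ := eq_birth hp1
      obtain ⟨b', rfl⟩ := eq_birth hp2
      rfl
    | death i =>
      rw [eq_death hp1, eq_death hp2]
      rfl
    | pos i =>
      rw [eq_pos hp1, eq_pos hp2]
      have h' : i + 2 ≤ q2.forget.index := h
      simp only [sign]
      rw [get_left h2 (by omega), get_left h2 (by omega)]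
    | neg i =>
      rw [eq_neg hp1, eq_neg hp2]
      have h' : i + 2 ≤ q2.forget.index := h
      simp only [sign]
      rw [get_left h2 (by omega), get_left h2 (by omega)]
  have e2 : sign q1 d1 = sign q2 d := by
    subst hp1
    have g1 : ∀ j, p1.forget.index + p1.forget.ins ≤ j →
        d1[j + p1.forget.outs - p1.forget.ins]? = d[j]? := fun j hj => get_right h1 hj
    cases q with
    | birth i =>
      obtain ⟨b, rfl⟩ := eq_birth hq1
      obtain ⟨b', rfl⟩ := eq_birth hq2
      rfl
    | death i =>
      rw [eq_death hq1, eq_death hq2]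
      rfl
    | pos i =>
      rw [eq_pos hq1, eq_pos hq2]
      have h' : p1.forget.index + p1.forget.ins ≤ i := h
      show sign (.pos (i + p1.forget.outs - p1.forget.ins)) d1 = _
      simp only [sign]
      rw [g1 i h', show i + p1.forget.outs - p1.forget.ins + 1
        = (i + 1) + p1.forget.outs - p1.forget.ins by omega, g1 (i + 1) (by omega)]
    | neg i =>
      rw [eq_neg hq1, eq_neg hq2]
      have h' : p1.forget.index + p1.forget.ins ≤ i := h
      show sign (.neg (i + p1.forget.outs - p1.forget.ins)) d1 = _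
      simp only [sign]
      rw [g1 i h', show i + p1.forget.outs - p1.forget.ins + 1
        = (i + 1) + p1.forget.outs - p1.forget.ins by omega, g1 (i + 1) (by omega)]
  rw [e1, e2, add_comm]

theorem append_inj2 {P P' Q Q' : List Bool} {x y x' y' : Bool}
    (h : P ++ x :: y :: Q = P' ++ x' :: y' :: Q') (hl : P.length = P'.length) :
    P = P' ∧ x = x' ∧ y = y' ∧ Q = Q' := by
  obtain ⟨h1, h2⟩ := List.append_inj h hl
  injection h2 with h3 h4
  injection h4 with h5 h6
  exact ⟨h1, h3, h5, h6⟩

theorem below_birth (P Q : List Bool) (b : Bool) :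
    (OPiece.birth P.length b).below (P ++ Q) = some (P ++ b :: (!b) :: Q) := by
  simp only [OPiece.below]
  rw [if_pos (by simp)]
  simp

theorem below_birth' (P Q : List Bool) (b c : Bool) :
    (OPiece.birth (P.length + 1) b).below (P ++ c :: Q) = some (P ++ c :: b :: (!b) :: Q) := by
  have := below_birth (P ++ [c]) Q b
  simpa using this

theorem below_pos (P Q : List Bool) (x y : Bool) :
    (OPiece.pos P.length).below (P ++ x :: y :: Q) = some (P ++ y :: x :: Q) := by
  simp [OPiece.below]

theorem below_neg (P Q : List Bool) (x y : Bool) :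
    (OPiece.neg P.length).below (P ++ x :: y :: Q) = some (P ++ y :: x :: Q) := by
  simp [OPiece.below]

theorem below_pos' (P Q : List Bool) (x y c : Bool) :
    (OPiece.pos (P.length + 1)).below (P ++ c :: x :: y :: Q) = some (P ++ c :: y :: x :: Q) := by
  have := below_pos (P ++ [c]) Q x y
  simpa using this

theorem below_neg' (P Q : List Bool) (x y c : Bool) :
    (OPiece.neg (P.length + 1)).below (P ++ c :: x :: y :: Q) = some (P ++ c :: y :: x :: Q) := by
  have := below_neg (P ++ [c]) Q x y
  simpa using this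

theorem sign_pos' (P : List Bool) (c x y : Bool) (Q : List Bool) :
    sign (.pos (P.length + 1)) (P ++ c :: x :: y :: Q) = if x = y then 1 else -1 := by
  have := sign_pos (P ++ [c]) x y Q
  simpa using this

theorem sign_neg' (P : List Bool) (c x y : Bool) (Q : List Bool) :
    sign (.neg (P.length + 1)) (P ++ c :: x :: y :: Q) = if x = y then -1 else 1 := by
  have := sign_neg (P ++ [c]) x y Q
  simpa using this

theorem exists_cons {Q : List Bool} {P : List Bool} {p : OPiece} {e : List Bool} {b : Bool}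
    (hp : p.forget = .pos (P.length + 1) ∨ p.forget = .neg (P.length + 1))
    (h : p.below (P ++ b :: (!b) :: Q) = some e) : ∃ c Q', Q = c :: Q' := by
  have : ∃ P' x y Q', P ++ b :: (!b) :: Q = P' ++ x :: y :: Q' ∧ P'.length = P.length + 1 := by
    rcases hp with hp | hp
    · rw [eq_pos hp] at h
      obtain ⟨P', x, y, Q', h1, h2, _⟩ := pos_below h
      exact ⟨P', x, y, Q', h1, h2⟩
    · rw [eq_neg hp] at h
      obtain ⟨P', x, y, Q', h1, h2, _⟩ := neg_below h
      exact ⟨P', x, y, Q', h1, h2⟩
  obtain ⟨P', x, y, Q', h1, h2⟩ := this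
  have h3 := congrArg List.length h1
  simp at h3
  cases Q with
  | nil => simp at h3; omega
  | cons c Q => exact ⟨c, Q, rfl⟩

theorem wr_local {l r : OWord} {d e : List Bool} (h : LocalMove (forget l) (forget r))
    (hl : below l d = some e) (hr : below r d = some e) : wr l d = wr r d := by
  generalize hL : forget l = L at h
  generalize hR : forget r = R' at h
  cases h with
  | exchange p q h =>
    obtain ⟨p1, q1, rfl, hp1, hq1⟩ := forget_two hL
    obtain ⟨q2, p2, rfl, hq2, hp2⟩ := forget_two hR
    exact wr_exchange h hp1 hp2 hq1 hq2 hl hr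
  | zigzag₁ i =>
    obtain ⟨p1, q1, rfl, hp1, hq1⟩ := forget_two hL
    obtain ⟨b, rfl⟩ := eq_birth hp1
    obtain rfl := eq_death hq1
    obtain ⟨d1, h1, _⟩ := below_cons hl
    rw [wr_two h1, forget_nil hR]
    rfl
  | zigzag₂ i =>
    obtain ⟨p1, q1, rfl, hp1, hq1⟩ := forget_two hL
    obtain ⟨b, rfl⟩ := eq_birth hp1
    obtain rfl := eq_death hq1
    obtain ⟨d1, h1, _⟩ := below_cons hl
    rw [wr_two h1, forget_nil hR]
    rfl
  | slideBirth₁ i =>
    obtain ⟨p1, q1, rfl, hp1, hq1⟩ := forget_two hL
    obtain ⟨p2, q2, rfl, hp2, hq2⟩ := forget_two hR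
    obtain ⟨b, rfl⟩ := eq_birth hp1
    obtain ⟨b', rfl⟩ := eq_birth hp2
    obtain rfl := eq_pos hq1
    obtain rfl := eq_neg hq2
    obtain ⟨d1, h1, h1'⟩ := below_cons hl
    obtain ⟨d2, h2, h2'⟩ := below_cons hr
    obtain ⟨P, Q, rfl, rfl, rfl⟩ := birth_below h1
    obtain ⟨d1', h3, h3'⟩ := below_cons h1'
    obtain ⟨c, Q, rfl⟩ := exists_cons (Or.inl rfl) h3
    rw [below_pos'] at h3
    injection h3 with h3
    rw [below_birth'] at h2
    injection h2 with h2
    subst h2
    subst h3
    rw [below_cons_some (below_neg _ _ _ _)] at h2'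
    change some _ = some _ at h3' h2'
    injection h3' with h3'
    injection h2' with h2'
    subst h3'
    obtain ⟨-, h4, -, -⟩ := append_inj2 h2' rfl
    subst h4
    rw [wr_two (below_birth _ _ _), wr_two (below_birth' _ _ _ _), sign_pos', sign_neg]
    cases b' <;> cases c <;> rfl
  | slideBirth₂ i =>
    obtain ⟨p1, q1, rfl, hp1, hq1⟩ := forget_two hL
    obtain ⟨p2, q2, rfl, hp2, hq2⟩ := forget_two hR
    obtain ⟨b, rfl⟩ := eq_birth hp1
    obtain ⟨b', rfl⟩ := eq_birth hp2
    obtain rfl := eq_neg hq1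
    obtain rfl := eq_pos hq2
    obtain ⟨d1, h1, h1'⟩ := below_cons hl
    obtain ⟨d2, h2, h2'⟩ := below_cons hr
    obtain ⟨P, Q, rfl, rfl, rfl⟩ := birth_below h1
    obtain ⟨d1', h3, h3'⟩ := below_cons h1'
    obtain ⟨c, Q, rfl⟩ := exists_cons (Or.inr rfl) h3
    rw [below_neg'] at h3
    injection h3 with h3
    rw [below_birth'] at h2
    injection h2 with h2
    subst h2
    subst h3
    rw [below_cons_some (below_pos _ _ _ _)] at h2'
    change some _ = some _ at h3' h2'
    injection h3' with h3'
    injection h2' with h2'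
    subst h3'
    obtain ⟨-, h4, -, -⟩ := append_inj2 h2' rfl
    subst h4
    rw [wr_two (below_birth _ _ _), wr_two (below_birth' _ _ _ _), sign_neg', sign_pos]
    cases b' <;> cases c <;> rfl
  | slideDeath₁ i =>
    obtain ⟨p1, q1, rfl, hp1, hq1⟩ := forget_two hL
    obtain ⟨p2, q2, rfl, hp2, hq2⟩ := forget_two hR
    obtain rfl := eq_pos hp1
    obtain rfl := eq_death hq1
    obtain rfl := eq_neg hp2
    obtain rfl := eq_death hq2
    obtain ⟨d1, h1, h1'⟩ := below_cons hl
    obtain ⟨d2, h2, h2'⟩ := below_cons hr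
    obtain ⟨d1', h3, -⟩ := below_cons h1'
    obtain ⟨P, b, Q, e1, rfl, e2⟩ := death_below h3
    obtain ⟨P2, x, y, Q2, e3, e4, e5⟩ := pos_below h1
    obtain ⟨c, Q3, e6⟩ : ∃ c Q3, Q = c :: Q3 := by
      cases Q with
      | cons c Q => exact ⟨c, Q, rfl⟩
      | nil =>
        have := congrArg List.length (e1.symm.trans e5)
        simp at this
        omega
    subst e6
    have e7 : P ++ [!b] = P2 ∧ b = y ∧ c = x ∧ Q3 = Q2 := by
      apply append_inj2 (P := P ++ [!b])
      · simpa using e1.symm.trans e5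
      · simp [e4]
    obtain ⟨rfl, rfl, rfl, rfl⟩ := e7
    have e8 : d = P ++ (!b) :: c :: b :: Q3 := by rw [e3]; simp
    subst e8
    rw [below_neg] at h2
    injection h2 with h2
    subst h2
    obtain ⟨d2', h5, -⟩ := below_cons h2'
    obtain ⟨P4, b4, Q4, e9, e10, -⟩ := death_below h5
    have e11 : P ++ [c] = P4 ∧ (!b) = (!b4) ∧ b = b4 ∧ Q3 = Q4 := by
      apply append_inj2 (P := P ++ [c])
      · simpa using e9
      · simp [e10]
    rw [wr_two h1, wr_two (below_neg _ _ _ _), sign_pos', sign_neg]
    simp only [sign]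
    cases b <;> cases c <;> simp_all
  | slideDeath₂ i =>
    obtain ⟨p1, q1, rfl, hp1, hq1⟩ := forget_two hL
    obtain ⟨p2, q2, rfl, hp2, hq2⟩ := forget_two hR
    obtain rfl := eq_neg hp1
    obtain rfl := eq_death hq1
    obtain rfl := eq_pos hp2
    obtain rfl := eq_death hq2
    obtain ⟨d1, h1, h1'⟩ := below_cons hl
    obtain ⟨d2, h2, h2'⟩ := below_cons hr
    obtain ⟨d1', h3, -⟩ := below_cons h1'
    obtain ⟨P, b, Q, e1, rfl, e2⟩ := death_below h3
    obtain ⟨P2, x, y, Q2, e3, e4, e5⟩ := neg_below h1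
    obtain ⟨c, Q3, e6⟩ : ∃ c Q3, Q = c :: Q3 := by
      cases Q with
      | cons c Q => exact ⟨c, Q, rfl⟩
      | nil =>
        have := congrArg List.length (e1.symm.trans e5)
        simp at this
        omega
    subst e6
    have e7 : P ++ [!b] = P2 ∧ b = y ∧ c = x ∧ Q3 = Q2 := by
      apply append_inj2 (P := P ++ [!b])
      · simpa using e1.symm.trans e5
      · simp [e4]
    obtain ⟨rfl, rfl, rfl, rfl⟩ := e7
    have e8 : d = P ++ (!b) :: c :: b :: Q3 := by rw [e3]; simp
    subst e8
    rw [below_pos] at h2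
    injection h2 with h2
    subst h2
    rw [wr_two h1, wr_two (below_pos _ _ _ _), sign_neg', sign_pos]
    simp only [sign]
    cases b <;> cases c <;> simp
  | second₁ i =>
    obtain ⟨p1, q1, rfl, hp1, hq1⟩ := forget_two hL
    obtain rfl := eq_pos hp1
    obtain rfl := eq_neg hq1
    obtain ⟨d1, h1, _⟩ := below_cons hl
    obtain ⟨P, x, y, Q, rfl, rfl, rfl⟩ := pos_below h1
    rw [wr_two h1, forget_nil hR, sign_pos, sign_neg]
    cases x <;> cases y <;> rfl
  | second₂ i =>
    obtain ⟨p1, q1, rfl, hp1, hq1⟩ := forget_two hL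
    obtain rfl := eq_neg hp1
    obtain rfl := eq_pos hq1
    obtain ⟨d1, h1, _⟩ := below_cons hl
    obtain ⟨P, x, y, Q, rfl, rfl, rfl⟩ := neg_below h1
    rw [wr_two h1, forget_nil hR, sign_pos, sign_neg]
    cases x <;> cases y <;> rfl
  | third i =>
    obtain ⟨p1, q1, s1, rfl, hp1, hq1, hs1⟩ := forget_three hL
    obtain ⟨p2, q2, s2, rfl, hp2, hq2, hs2⟩ := forget_three hR
    obtain rfl := eq_pos hp1
    obtain rfl := eq_pos hq1
    obtain rfl := eq_pos hs1
    obtain rfl := eq_pos hp2
    obtain rfl := eq_pos hq2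
    obtain rfl := eq_pos hs2
    obtain ⟨d1, h1, h1'⟩ := below_cons hl
    obtain ⟨P, x, y, Q, rfl, rfl, rfl⟩ := pos_below h1
    obtain ⟨d2, h2, _⟩ := below_cons h1'
    obtain ⟨z, Q, rfl⟩ : ∃ z Q', Q = z :: Q' := by
      obtain ⟨P', x', y', Q', e1, e2, _⟩ := pos_below h2
      cases Q with
      | cons c Q => exact ⟨c, Q, rfl⟩
      | nil =>
        have := congrArg List.length e1
        simp at this
        omega
    rw [wr_cons (below_pos _ _ _ _), wr_cons (below_pos' _ _ _ _ _), wr_one,
      wr_cons (below_pos' _ _ _ _ _), wr_cons (below_pos _ _ _ _), wr_one,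
      sign_pos, sign_pos', sign_pos, sign_pos', sign_pos, sign_pos']
    ring

end Pool.Agent.H837R2.Jones
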